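import Pool.Agent.Lib.ZSA.GArch
import Pool.Agent.Lib.Z579.Num5

/-!
# Numerical certificates for step profiles
-/

open Real Finset Set

namespace Z579

namespace Num

open Arch EM

/-! ## the tail -/

theorem tail0 (P : Par) (hP : P.Ok) (Y0 : ℕ) (hY : (P.eps : ℝ) < Y0)
    (hd : 4 * (P.c1 * P.t1 + P.c2 * P.tau) / Y0 + 8 * P.d * (Y0 * P.eps / ((Y0 : ℝ) - P.eps) ^ 2)
      ≤ 528 / 100) : ∀ y : ℝ, (Y0 : ℝ) ≤ y →
    -(2 * π * y) + 2 * UL P y ≤ -(2 * π * Y0) + 2 * UL P Y0 - (y - Y0) := by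
  intro y hy
  set A : ℝ := ((P.al : ℕ) : ℝ) with hA
  set T : ℝ := ((P.tau : ℕ) : ℝ) with hT
  set t1 : ℝ := ((P.t1 : ℕ) : ℝ) with ht1
  set E : ℝ := ((P.eps : ℕ) : ℝ) with hE
  have A0 : 0 ≤ A := by rw [hA]; positivity
  have T0 : 0 ≤ T := by rw [hT]; positivity
  have t10 : 0 ≤ t1 := by rw [ht1]; positivity
  have t1T : t1 ≤ T := by rw [ht1, hT]; exact_mod_cast hP.t1t
  have E0 : 0 ≤ E := by rw [hE]; positivity
  have c10 := hP.c1n
  have c20 := hP.c2n
  have d0 := hP.dn
  have Y0p : (0 : ℝ) < Y0 := lt_of_le_of_lt E0 hY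
  set D : ℝ := 2 * A + 2 * T with hD
  have D0 : 0 ≤ D := by positivity
  -- derivative
  let dP : ℝ → ℝ := fun y => -(2 * π) +
    2 * (P.c1 * (arctan (T / y) - arctan ((T - t1) / y) + arctan ((2 * A + T + t1) / y) -
        arctan ((2 * A + T) / y)) +
      P.c2 * (arctan (T / y) - arctan ((T - T) / y) + arctan ((2 * A + T + T) / y) -
        arctan ((2 * A + T) / y)) +
      P.d * (gg (y + E) 0 - gg (y - E) 0 + gg (y + E) D - gg (y - E) D))
  have hder : ∀ y : ℝ, (Y0 : ℝ) ≤ y → HasDerivAt (fun y => -(-(2 * π * y) + 2 * UL P y) - y) (-(dP y) - 1) y := by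
    intro y hy
    have y0 : 0 < y := by linarith
    have hyE : E < y := by linarith
    have b (x : ℝ) : HasDerivAt (fun y => GG x y) (arctan (x / y)) y := hasDerivAt_GG_y y0
    have c (D' : ℝ) (hD' : 0 ≤ D') (e : ℝ) (he : y + e ≠ 0) :
        HasDerivAt (fun y => GG (y + e) D') (gg (y + e) D') y := by
      have h1 := hasDerivAt_GG_x (x := y + e) hD' (fun _ => he)
      exact HasDerivAt.comp_add_const y e h1
    have hp : y + E ≠ 0 := by have : 0 < y + E := by linarith
                              exact this.ne'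
    have hm : y + -E ≠ 0 := by have : 0 < y + -E := by linarith
                               exact this.ne'
    have h2 := (((b T).sub (b (T - t1))).add (b (2 * A + T + t1))).sub (b (2 * A + T))
    have h3 := (((b T).sub (b (T - T))).add (b (2 * A + T + T))).sub (b (2 * A + T))
    have h4 := (((c 0 le_rfl E hp).sub (c 0 le_rfl (-E) hm)).add (c D D0 E hp)).sub (c D D0 (-E) hm)
    have h5 := ((h2.const_mul P.c1).add (h3.const_mul P.c2)).add (h4.const_mul P.d)
    have h6 := (((hasDerivAt_id y).const_mul (2 * π)).neg).add (h5.const_mul 2)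
    have h7 := h6.neg.sub (hasDerivAt_id y)
    refine (h7.congr_deriv ?_).congr_of_eventuallyEq ?_
    · simp only [dP, ← sub_eq_add_neg]
      ring
    · filter_upwards with y
      simp only [UL, BL, BLl, Pi.neg_apply, Pi.sub_apply, Pi.add_apply, id,
        ← sub_eq_add_neg, ← hA, ← hT, ← ht1, ← hE, ← hD]
  have hneg : ∀ y : ℝ, (Y0 : ℝ) ≤ y → 0 ≤ -(dP y) - 1 := by
    intro y hy
    have y0 : 0 < y := by linarith
    have hyE : E < y := by linarith
    have dv (u v : ℝ) (h : v ≤ u) : arctan (u / y) - arctan (v / y) ≤ (u - v) / y := by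
      have := arctan_sub_le' (div_le_div_of_nonneg_right h y0.le)
      rw [← sub_div] at this
      exact this
    have g2 := dv T (T - t1) (by linarith)
    have g3 := dv (2 * A + T + t1) (2 * A + T) (by linarith)
    have g4 := dv T (T - T) (by linarith)
    have g5 := dv (2 * A + T + T) (2 * A + T) (by linarith)
    have g6 := gg_diff_le (D := 0) E0 hyE
    have g7 := gg_diff_le (D := D) E0 hyE
    have m1 := mul_le_mul_of_nonneg_left (add_le_add g2 g3) c10
    have m2 := mul_le_mul_of_nonneg_left (add_le_add g4 g5) c20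
    have m3 := mul_le_mul_of_nonneg_left (add_le_add g6 g7) d0
    -- monotonicity in `y`
    have k1 : 4 * (P.c1 * t1 + P.c2 * T) / y ≤ 4 * (P.c1 * t1 + P.c2 * T) / Y0 :=
      div_le_div_of_nonneg_left (by positivity) Y0p hy
    have k2 : y * E / (y - E) ^ 2 ≤ Y0 * E / ((Y0 : ℝ) - E) ^ 2 := by
      have a1 : 0 < y - E := by linarith
      have a2 : 0 < (Y0 : ℝ) - E := by linarith
      rw [div_le_div_iff₀ (by positivity) (by positivity)]
      have a3 : y * ((Y0 : ℝ) - E) ≤ Y0 * (y - E) := by nlinarith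
      have a4 : ((Y0 : ℝ) - E) ≤ y - E := by linarith
      have a5 : y * ((Y0 : ℝ) - E) * (((Y0 : ℝ) - E)) ≤ Y0 * (y - E) * (y - E) :=
        mul_le_mul a3 a4 a2.le (by positivity)
      have a6 := mul_le_mul_of_nonneg_left a5 E0
      have a7 : y * E * ((Y0 : ℝ) - E) ^ 2 = E * (y * ((Y0 : ℝ) - E) * (((Y0 : ℝ) - E))) := by ring
      have a8 : (Y0 : ℝ) * E * (y - E) ^ 2 = E * (Y0 * (y - E) * (y - E)) := by ring
      rw [a7, a8]
      exact a6
    have k3 := mul_le_mul_of_nonneg_left k2 (by positivity : (0 : ℝ) ≤ 8 * P.d)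
    have hpi := pi_gt_d4
    have e1 : P.c1 * ((T - (T - t1)) / y + (2 * A + T + t1 - (2 * A + T)) / y) =
        2 * (P.c1 * t1) / y := by ring
    have e2 : P.c2 * ((T - (T - T)) / y + (2 * A + T + T - (2 * A + T)) / y) =
        2 * (P.c2 * T) / y := by ring
    have e3 : P.d * (2 * y * E / (y - E) ^ 2 + 2 * y * E / (y - E) ^ 2) =
        4 * P.d * (y * E / (y - E) ^ 2) := by ring
    rw [e1] at m1
    rw [e2] at m2
    rw [e3] at m3
    have e4 : 4 * (P.c1 * t1 + P.c2 * T) / y = 2 * (2 * (P.c1 * t1) / y) +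
        2 * (2 * (P.c2 * T) / y) := by ring
    simp only [dP]
    linarith
  have key := le_of_deriv_nonneg (f := fun y => -(-(2 * π * y) + 2 * UL P y) - y) (f' := fun y => -(dP y) - 1)
    (a := Y0) (x := y) hder hneg hy
  linarith


lemma GG_sub_mono {x x' Y y : ℝ} (hx : x' ≤ x) (hY : 0 < Y) (hy : Y ≤ y) :
    GG x Y - GG x' Y ≤ GG x y - GG x' y := by
  have h := le_of_deriv_nonneg (f := fun y => GG x y - GG x' y)
    (f' := fun y => arctan (x / y) - arctan (x' / y)) (a := Y) (x := y)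
    (fun t ht => (hasDerivAt_GG_y (by linarith)).sub (hasDerivAt_GG_y (by linarith)))
    (fun t ht => by
      have ht0 : 0 < t := by linarith
      have := arctan_strictMono.monotone (div_le_div_of_nonneg_right hx ht0.le)
      linarith) hy
  exact h

theorem tail_bdL (P : Par) (hP : P.Ok) (Lv : Finset ℕ) (l : ℝ) (Y0 : ℕ) (hY : (P.eps : ℝ) < Y0)
    (hd : 4 * (P.c1 * P.t1 + P.c2 * P.tau) / Y0 + 8 * P.d * (Y0 * P.eps / ((Y0 : ℝ) - P.eps) ^ 2)
      ≤ 528 / 100)
    (h0 : PhiLL P Lv Y0 ≤ l) : ∀ y : ℝ, (Y0 : ℝ) ≤ y → PhiLL P Lv y ≤ l - (y - Y0) := by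
  intro y hy
  have h1 := tail0 P hP Y0 hY hd y hy
  have hY0 : (0 : ℝ) < Y0 := lt_of_le_of_lt (Nat.cast_nonneg _) hY
  have h2 : QL Lv P.al 1 P.tau Y0 ≤ QL Lv P.al 1 P.tau y := by
    unfold QL
    refine Finset.sum_le_sum fun i _ => ?_
    have hi : (0 : ℝ) ≤ i := Nat.cast_nonneg i
    have := GG_sub_mono (x := P.tau + P.al + i * 1) (x' := P.tau + P.al - i * 1) (by linarith)
      hY0 hy
    linarith
  unfold PhiLL at h0 ⊢
  linarith

/-! ## term lists -/

/-- terms of the profile at the sites -/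
def TBS (al den : ℤ) : List ℕ → List Trm
  | [] => []
  | b :: be => ⟨-(2 * den), true, al + b, 0, true⟩ :: ⟨2 * den, true, al - b, 0, true⟩ ::
      TBS al den be

/-- terms of the profile on the line -/
def TBL (al tau den : ℤ) : List ℕ → List Trm
  | [] => []
  | b :: be => ⟨-(2 * den), false, tau + al + b, 0, true⟩ ::
      ⟨2 * den, false, tau + al - b, 0, true⟩ :: TBL al tau den be

lemma tval_append (T T' : List Trm) (s : ℝ) : tval (T ++ T') s = tval T s + tval T' s := by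
  induction T with
  | nil => simp [tval]
  | cons t T ih => rw [List.cons_append, tval, tval, ih]; ring

lemma tval_TBS (al : ℕ) (den : ℤ) (be : List ℕ) (s : ℝ) :
    tval (TBS al den be) s = -(den : ℝ) *
      (be.map fun i : ℕ => 2 * (GG (s + al + i * 1) 0 - GG (s + al - i * 1) 0)).sum := by
  induction be with
  | nil => simp [TBS, tval]
  | cons b be ih =>
    rw [TBS, tval, tval, ih, List.map_cons, List.sum_cons]
    simp only [Trm.val, sgn, if_true]
    push_cast
    rw [show s + (al : ℝ) + b * 1 = al + b + 1 * s by ring,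
      show s + (al : ℝ) - b * 1 = al - b + 1 * s by ring]
    ring

lemma tval_TBL (al tau : ℕ) (den : ℤ) (be : List ℕ) (s : ℝ) :
    tval (TBL al tau den be) s = -(den : ℝ) *
      (be.map fun i : ℕ => 2 * (GG ((tau : ℝ) + al + i * 1) s - GG ((tau : ℝ) + al - i * 1) s)).sum := by
  induction be with
  | nil => simp [TBL, tval]
  | cons b be ih =>
    rw [TBL, tval, tval, ih, List.map_cons, List.sum_cons]
    simp only [Trm.val, sgn, if_true, Bool.false_eq_true, if_false]
    push_cast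
    simp only [zero_add, one_mul, mul_one]
    ring

lemma PhiSL_eq (P : Par) (Lv : Finset ℕ) (be : List ℕ)
    (hbe : ∀ f : ℕ → ℝ, ∑ i ∈ Lv, f i = (be.map f).sum) {C1 C2 Dd den : ℤ} (hden : 0 < den)
    (h1 : P.c1 = C1 / den) (h2 : P.c2 = C2 / den) (h3 : P.d = Dd / den) (s : ℝ) :
    PhiSL P Lv s = tval (TBS P.al den be ++ TS 0 P.al P.t1 P.tau P.eps C1 C2 Dd den) s / den := by
  have hd : (den : ℝ) ≠ 0 := by exact_mod_cast hden.ne'
  have h := PhiS_eq { P with q := 0 } hden h1 h2 h3 s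
  have h' : 2 * US P s = tval (TS 0 P.al P.t1 P.tau P.eps C1 C2 Dd den) s / den := by
    have e : PhiS { P with q := 0 } s = 2 * US P s := by
      simp only [PhiS, US]
      push_cast
      ring
    rw [← e]
    exact_mod_cast h
  rw [tval_append, tval_TBS, add_div, ← h', PhiSL, QL, hbe]
  field_simp

lemma PhiLL_eq (P : Par) (Lv : Finset ℕ) (be : List ℕ)
    (hbe : ∀ f : ℕ → ℝ, ∑ i ∈ Lv, f i = (be.map f).sum) {C1 C2 Dd den : ℤ} (hden : 0 < den)
    (h1 : P.c1 = C1 / den) (h2 : P.c2 = C2 / den) (h3 : P.d = Dd / den) (s : ℝ) :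
    PhiLL P Lv s = tval (TBL P.al P.tau den be ++
      TL 0 P.al P.t1 P.tau P.eps C1 C2 Dd den) s / den - 2 * π * s := by
  have hd : (den : ℝ) ≠ 0 := by exact_mod_cast hden.ne'
  have h := PhiL_eq { P with q := 0 } hden h1 h2 h3 s
  have h' : 2 * UL P s = tval (TL 0 P.al P.t1 P.tau P.eps C1 C2 Dd den) s / den := by
    have e : PhiL { P with q := 0 } s = 2 * UL P s - 2 * π * s := by
      simp only [PhiL, UL]
      push_cast
      ring
    rw [e] at h
    have h4 : 2 * UL P s = tval (TL ((0 : ℕ) : ℤ) P.al P.t1 P.tau P.eps C1 C2 Dd den) s / den := by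
      linarith
    exact_mod_cast h4
  rw [tval_append, tval_TBL, add_div, ← h', PhiLL, QL, hbe]
  field_simp
  ring

/-! ## assembly -/

def chkLineL (be : List ℕ) (al t1 tau eps C1 C2 Dd den l : ℤ) (j : ℕ) : Bool :=
  cellOK (TBL al tau den be ++ TL 0 al t1 tau eps C1 C2 Dd den) (8 * den) den j l l

def chkSiteL (be : List ℕ) (al t1 tau eps C1 C2 Dd den : ℤ) (D : Dat) (i : ℕ) : Bool :=
  cellOK (TBS al den be ++ TS 0 al t1 tau eps C1 C2 Dd den) 0 den i
    (D.l + D.sL.getD i 0) (D.l + D.sR.getD i 0) &&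
    decide (0 ≤ D.sL.getD i 0) && decide (0 ≤ D.sR.getD i 0)

theorem mk_certL (P : Par) (hP : P.Ok) (Lv : Finset ℕ) (be : List ℕ)
    (hbe : ∀ f : ℕ → ℝ, ∑ i ∈ Lv, f i = (be.map f).sum) {C1 C2 Dd den : ℤ} (hden : 0 < den) (h1 : P.c1 = C1 / den)
    (h2 : P.c2 = C2 / den) (h3 : P.d = Dd / den) (D : Dat) (Y0 : ℕ) (A0 : ℤ)
    (hY : P.eps < Y0)
    (hd : 4 * (P.c1 * P.t1 + P.c2 * P.tau) / Y0 + 8 * P.d * (Y0 * P.eps / ((Y0 : ℝ) - P.eps) ^ 2)
      ≤ 528 / 100)
    (kL : ∀ j < Y0, chkLineL be P.al P.t1 P.tau P.eps C1 C2 Dd den D.l j = true)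
    (kS : ∀ i < P.tau, chkSiteL be P.al P.t1 P.tau P.eps C1 C2 Dd den D i = true)
    (kES : ∀ i < P.tau, chkS P.al P.t1 P.tau P.eps C1 C2 Dd den D i = true)
    (kEL : ∀ j < P.eps, chkL P.al P.t1 P.tau P.eps C1 C2 Dd den D j = true)
    (kT : totZ P.r P.mu P.t1 P.tau P.eps C1 C2 Dd den D ≤ 2000 * den * A0) :
    Nonempty (CertL P Lv (A0 : ℝ)) := by
  have hdr : (den : ℝ) ≠ 0 := by exact_mod_cast hden.ne'
  have hline : ∀ j < Y0, CellLe (PhiLL P Lv) j ((D.l : ℝ) / 1000) ((D.l : ℝ) / 1000) := by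
    intro j hj s hs hs'
    have h := cellOK_spec (by omega) hden (kL j hj) hs hs'
    rw [PhiLL_eq P Lv be hbe hden h1 h2 h3]
    have e : ((8 * den : ℤ) : ℝ) * π * s / (4 * den) = 2 * π * s := by
      push_cast; field_simp; ring
    rw [e] at h
    exact h
  refine ⟨{ l := (D.l : ℝ) / 1000, Y0 := Y0,
            sL := fun i => ((D.sL.getD i 0 : ℤ) : ℝ) / 1000,
            sR := fun i => ((D.sR.getD i 0 : ℤ) : ℝ) / 1000,
            eL := fun i => ((D.eL.getD i 0 : ℤ) : ℝ) / 1000,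
            eR := fun i => ((D.eR.getD i 0 : ℤ) : ℝ) / 1000,
            fL := fun i => ((D.fL.getD i 0 : ℤ) : ℝ) / 1000,
            fR := fun i => ((D.fR.getD i 0 : ℤ) : ℝ) / 1000,
            sLn := ?_, sRn := ?_, line := hline, tail := ?_, site := ?_, enS := ?_, enL := ?_,
            tot := ?_ }⟩
  · intro i hi
    have h := kS i hi
    simp only [chkSiteL, Bool.and_eq_true, decide_eq_true_eq] at h
    have : (0 : ℝ) ≤ ((D.sL.getD i 0 : ℤ) : ℝ) := by exact_mod_cast h.1.2
    positivity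
  · intro i hi
    have h := kS i hi
    simp only [chkSiteL, Bool.and_eq_true, decide_eq_true_eq] at h
    have : (0 : ℝ) ≤ ((D.sR.getD i 0 : ℤ) : ℝ) := by exact_mod_cast h.2
    positivity
  · apply tail_bdL P hP Lv _ Y0 (by exact_mod_cast hY) hd
    obtain ⟨Y, rfl⟩ : ∃ Y, Y0 = Y + 1 := ⟨Y0 - 1, by omega⟩
    have h := hline Y (by omega) ((Y : ℝ) + 1) (by linarith) (le_refl _)
    push_cast
    linarith
  · intro i hi s hs hs'
    have h := kS i hi
    simp only [chkSiteL, Bool.and_eq_true] at h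
    have h' := cellOK_spec (le_refl 0) hden h.1.1 hs hs'
    rw [PhiSL_eq P Lv be hbe hden h1 h2 h3]
    push_cast at h'
    simp only [zero_mul, zero_div, sub_zero] at h'
    calc _ ≤ _ := h'
      _ = _ := by ring
  · intro i hi s hs hs'
    have h' := cellOK_spec (le_refl 0) hden (kES i hi) hs hs'
    show -US P s ≤ _
    rw [US_eq P hden h1 h2 h3]
    push_cast at h'
    simp only [zero_mul, zero_div, sub_zero] at h'
    calc _ ≤ _ := h'
      _ = _ := by ring
  · intro i hi s hs hs'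
    have h' := cellOK_spec (le_refl 0) hden (kEL i hi) hs hs'
    show -UL P s ≤ _
    rw [UL_eq P hden h1 h2 h3]
    push_cast at h'
    simp only [zero_mul, zero_div, sub_zero] at h'
    calc _ ≤ _ := h'
      _ = _ := by ring
  · have h := kT
    have h' : ((totZ P.r P.mu P.t1 P.tau P.eps C1 C2 Dd den D : ℤ) : ℝ) ≤ 2000 * den * A0 := by
      exact_mod_cast h
    rw [totZ] at h'
    push_cast [sumZ_eq] at h'
    have hdp : (0 : ℝ) < den := by exact_mod_cast hden
    rw [h1, h2, h3]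
    have e : ∀ (n : ℕ) (f g : ℕ → ℤ), ∑ i ∈ range n, ((f i : ℝ) / 1000 + (g i : ℝ) / 1000) / 2 =
        (∑ i ∈ range n, ((f i : ℝ) + (g i : ℝ))) / 2000 := by
      intro n f g
      rw [Finset.sum_div]
      refine Finset.sum_congr rfl fun i _ => by ring
    rw [e P.tau (fun i => D.sL.getD i 0) (fun i => D.sR.getD i 0),
      e P.t1 (fun i => D.eL.getD i 0) (fun i => D.eR.getD i 0),
      e P.tau (fun i => D.eL.getD i 0) (fun i => D.eR.getD i 0),
      e P.eps (fun i => D.fL.getD i 0) (fun i => D.fR.getD i 0)]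
    rw [← mul_le_mul_iff_right₀ (show (0 : ℝ) < 2000 * den by positivity)]
    refine le_trans (le_of_eq ?_) h'
    field_simp
    ring

end Num

end Z579
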