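import Pool.Agent.Lib.ZSA.GW
import Pool.Agent.Lib.Z579.E6Fin

/-!
# The archimedean bound for a step profile from a numerical certificate
-/

open Finset

namespace Z579

namespace EM

open Arch

variable {P : Par}

/-- sum of the levels -/
noncomputable def NL (Lv : Finset ℕ) : ℝ := ∑ i ∈ Lv, (i : ℝ)

/-- weighted potential at the sites -/
noncomputable def PhiSL (P : Par) (Lv : Finset ℕ) (s : ℝ) : ℝ := -QL Lv P.al 1 s 0 + 2 * US P s

/-- weighted potential on the line -/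
noncomputable def PhiLL (P : Par) (Lv : Finset ℕ) (y : ℝ) : ℝ :=
  -QL Lv P.al 1 P.tau y - 2 * Real.pi * y + 2 * UL P y

/-- numerical data for the archimedean bound with parameters `P` and levels `Lv` -/
structure CertL (P : Par) (Lv : Finset ℕ) (A0 : ℝ) where
  l : ℝ
  Y0 : ℕ
  sL : ℕ → ℝ
  sR : ℕ → ℝ
  eL : ℕ → ℝ
  eR : ℕ → ℝ
  fL : ℕ → ℝ
  fR : ℕ → ℝ
  sLn : ∀ i < P.tau, 0 ≤ sL i
  sRn : ∀ i < P.tau, 0 ≤ sR i
  line : ∀ j < Y0, CellLe (PhiLL P Lv) j l l
  tail : ∀ y : ℝ, (Y0 : ℝ) ≤ y → PhiLL P Lv y ≤ l - (y - Y0)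
  site : ∀ i < P.tau, CellLe (PhiSL P Lv) i (l + sL i) (l + sR i)
  enS : ∀ i < P.tau, CellLe (fun s => -US P s) i (-eL i) (-eR i)
  enL : ∀ j < P.eps, CellLe (fun s => -UL P s) j (-fL j) (-fR j)
  tot : P.mu * l + (P.r + 1) * ∑ i ∈ range P.tau, (sL i + sR i) / 2 -
    (P.c1 * ∑ i ∈ range P.t1, (eL i + eR i) / 2 + P.c2 * ∑ i ∈ range P.tau, (eL i + eR i) / 2 +
      2 * P.d * ∑ j ∈ range P.eps, (fL j + fR j) / 2) ≤ A0

/-- the archimedean bound for every functional with a mixed representation -/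
def ArchTotL (P : Par) (Lv : Finset ℕ) (D0 : ℕ) (A0 : ℝ) : Prop :=
  ∀ δ : ℝ, 0 < δ → ∃ k0 : ℕ, ∀ k : ℕ, k0 ≤ k →
  ∀ (L : Polynomial ℚ →ₗ[ℚ] ℚ) (S : ℕ → PowerSeries ℂ),
  Rep P.r (P.al * k + 1) (P.tau * k) (2 * (P.mu * k) - 2) (D0 * k) (Rlev Lv k) S
    (fun j => ((L (Polynomial.X ^ j) : ℚ) : ℂ)) →
  |((hank L (P.mu * k) : ℚ) : ℝ)| ≤
    Real.exp (k ^ 2 * ((2 * P.mu ^ 2 - 4 * NL Lv * P.mu) * Real.log k + A0 + δ))

lemma QL_scale (Lv : Finset ℕ) {k : ℝ} (hk : 0 < k) (A s y : ℝ) :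
    QL Lv (k * A) k (k * s) (k * y) = k * QL Lv A 1 s y + 4 * NL Lv * (k * Real.log k) := by
  unfold QL NL
  rw [Finset.mul_sum, Finset.mul_sum, Finset.sum_mul, ← Finset.sum_add_distrib]
  refine Finset.sum_congr rfl fun i _ => ?_
  have e1 : k * s + k * A + i * k = k * (s + A + i * 1) := by ring
  have e2 : k * s + k * A - i * k = k * (s + A - i * 1) := by ring
  rw [e1, e2, GG_scale' hk, GG_scale' hk]
  ring

theorem site_boundL (hU1 : U1) (hU2 : U2) (hP : P.Ok) {Lv : Finset ℕ} (hLv : ∀ i ∈ Lv, i ≤ P.al)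
    (D0 : ℕ) (KR : ℝ) :
    ∃ C : ℝ, 0 ≤ C ∧ ∀ k t : ℕ, 1 ≤ k → t < P.tau * k →
    wgtG P.r (D0 * k) (Rlev Lv k) (P.al * k + 1) (P.tau * k) (P.mu * k) KR (Sum.inl t) *
      Real.exp (2 * ∑ x ∈ refS P k, refC P k x *
        KK (pos (P.al * k + 1) (P.tau * k) (Sum.inl t)) (refX P k x)) ≤
    Real.exp (k * PhiSL P Lv (t / k) + (4 * P.mu - 4 * NL Lv) * (k * Real.log k) +
      C * Real.log (k + 1)) := by
  obtain ⟨C1, hC1, h1⟩ := pot_site hU1 hU2 hP
  obtain ⟨C2, hC2, h2⟩ := site_wgt (tau := P.tau) (mu := P.mu) hLv P.r D0 KR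
  refine ⟨2 * C1 + C2, by positivity, ?_⟩
  intro k t hk ht
  have hk0 : (0 : ℝ) < k := by exact_mod_cast hk
  have g1 := (abs_le.1 (h1 k t hk ht)).2
  have g2 := h2 k t hk ht
  refine (mul_le_mul_of_nonneg_right g2 (Real.exp_nonneg _)).trans ?_
  rw [← Real.exp_add, Real.exp_le_exp]
  have hts : (t : ℝ) = k * (t / k) := by field_simp
  have e1 : QL Lv (P.al * k) k t 0 = k * QL Lv P.al 1 (t / k) 0 + 4 * NL Lv * (k * Real.log k) := by
    rw [← QL_scale Lv hk0, mul_zero, ← hts, mul_comm]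
  rw [e1]
  unfold PhiSL
  nlinarith [g1]

theorem line_boundL (hU3 : U3) (hU4 : U4) (hP : P.Ok) {Lv : Finset ℕ} (hLv : ∀ i ∈ Lv, i ≤ P.al)
    (D0 : ℕ) (KR : ℝ) :
    ∃ C : ℝ, 0 ≤ C ∧ ∀ (k : ℕ) (y : ℝ), 1 ≤ k →
    wgtG P.r (D0 * k) (Rlev Lv k) (P.al * k + 1) (P.tau * k) (P.mu * k) KR (Sum.inr y) *
      Real.exp (2 * ∑ x ∈ refS P k, refC P k x *
        KK (pos (P.al * k + 1) (P.tau * k) (Sum.inr y)) (refX P k x)) ≤
    Real.exp (k * PhiLL P Lv (|y| / k) + (4 * P.mu - 4 * NL Lv) * (k * Real.log k) +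
      C * Real.log (k + 1 + |y|)) := by
  obtain ⟨C1, hC1, h1⟩ := pot_line hU3 hU4 hP
  obtain ⟨C2, hC2, h2⟩ := line_wgt (tau := P.tau) (mu := P.mu) hLv hP.tau2 P.r D0 KR
  refine ⟨2 * C1 + C2, by positivity, ?_⟩
  intro k y hk
  have hk0 : (0 : ℝ) < k := by exact_mod_cast hk
  have hy0 := abs_nonneg y
  have g1 := (abs_le.1 (h1 k y hk)).2
  have g2 := h2 k y hk
  refine (mul_le_mul_of_nonneg_right g2 (Real.exp_nonneg _)).trans ?_
  rw [← Real.exp_add, Real.exp_le_exp]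
  have hts : |y| = k * (|y| / k) := by field_simp
  have e1 : QL Lv (P.al * k) k (P.tau * k) |y| =
      k * QL Lv P.al 1 P.tau (|y| / k) + 4 * NL Lv * (k * Real.log k) := by
    rw [← QL_scale Lv hk0, ← hts, mul_comm (k : ℝ) P.al, mul_comm (k : ℝ) P.tau]
  have e3 : 2 * Real.pi * |y| = k * (2 * Real.pi * (|y| / k)) := by field_simp
  rw [e1, e3]
  unfold PhiLL
  nlinarith [g1]

set_option maxHeartbeats 1000000 in
theorem archTot_lev (hU1 : U1) (hU2 : U2) (hU3 : U3) (hU4 : U4) (hP : P.Ok) {Lv : Finset ℕ}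
    (hLv : ∀ i ∈ Lv, i ≤ P.al) (D0 : ℕ) {A0 : ℝ} (c : CertL P Lv A0) : ArchTotL P Lv D0 A0 := by
  intro δ hδ
  obtain ⟨KR, hKR, hKer⟩ := Ker_bound P.r hP.r2
  obtain ⟨C1, hC1, h1⟩ := site_boundL hU1 hU2 hP hLv D0 KR
  obtain ⟨C2, hC2, h2⟩ := line_boundL hU3 hU4 hP hLv D0 KR
  obtain ⟨C3, hC3, h3⟩ := energy_lower hU1 hU2 hU3 hU4 hP c.eL c.eR c.fL c.fR c.enS c.enL
  have hlY : 0 ≤ Real.log (((c.Y0 : ℝ) + 1) + 1) :=
    Real.log_nonneg (by
      have : (0 : ℝ) ≤ c.Y0 := by positivity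
      linarith)
  have hlC : 0 ≤ Real.log (C2 + 1) := Real.log_nonneg (by linarith)
  set C4 : ℝ := C1 + C2 * (2 * Real.log (((c.Y0 : ℝ) + 1) + 1) + 1) +
    2 * (1 + C2 * Real.log (C2 + 1)) with hC4
  have hC4n : 0 ≤ C4 := by positivity
  set C5 : ℝ := P.mu * C4 + P.mu * (2 * Real.log ((P.mu : ℝ) + 1) + 1) +
    P.mu * (2 * Real.log ((2 * P.tau : ℝ) + 2) + 1) +
    (P.r + 1) * |∑ i ∈ range P.tau, (c.sR i - c.sL i)| + C3 with hC5
  obtain ⟨k0, hk0⟩ := eventually_klog C5 δ hδ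
  refine ⟨max k0 1, fun k hk L S hL => ?_⟩
  have hk1 : 1 ≤ k := (le_max_right _ _).trans hk
  have hkk := hk0 k ((le_max_left _ _).trans hk)
  have hkp : (0 : ℝ) < k := by exact_mod_cast hk1
  have hk1' : (1 : ℝ) ≤ k := by exact_mod_cast hk1
  set Lg := Real.log ((k : ℝ) + 1) with hLg
  have hLg2 : 1 / 2 ≤ Lg := half_le_log hk1
  set l : ℝ := k * c.l + (4 * P.mu - 4 * NL Lv) * (k * Real.log k) + C4 * Lg with hl
  set ψ : ℕ → ℝ := fun t => if t < P.tau * k then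
    k * (c.sL (t / k) + (c.sR (t / k) - c.sL (t / k)) *
      (((t : ℝ) + 0) / k - ((t / k : ℕ) : ℝ))) else 0 with hψ
  have hψ0 : ∀ t, 0 ≤ ψ t := by
    intro t
    by_cases ht : t < P.tau * k
    · have e : ψ t = k * (c.sL (t / k) + (c.sR (t / k) - c.sL (t / k)) *
        (((t : ℝ) + 0) / k - ((t / k : ℕ) : ℝ))) := if_pos ht
      rw [e]
      obtain ⟨d1, d2, d3⟩ := div_mem_cell hk1 ht (h := 0) le_rfl one_pos
      have s1 := c.sLn _ d1
      have s2 := c.sRn _ d1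
      refine mul_nonneg hkp.le ?_
      set x : ℝ := ((t : ℝ) + 0) / k - ((t / k : ℕ) : ℝ) with hx
      have hx0 : 0 ≤ x := by linarith
      have hx1 : x ≤ 1 := by linarith
      nlinarith [mul_nonneg s1 (sub_nonneg.2 hx1), mul_nonneg s2 hx0]
    · have e : ψ t = 0 := if_neg ht
      rw [e]
  have hmain := hank_energyG (r := P.r) (a := P.al * k + 1) (T := P.tau * k) (m := P.mu * k)
    (Rf := Rlev Lv k) (S := S) L hL (by positivity) (by omega) hKR.le hKer (refS P k) (refX P k) (refC P k) (mass_ref hP k) l ψ hψ0 ?_ ?_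
  · -- conclusion
    refine hmain.trans ?_
    have hen := h3 k hk1
    have hψs : ∑ t ∈ range (P.tau * k), ψ t = (k : ℝ) ^ 2 * ∑ i ∈ range P.tau,
        (c.sL i + c.sR i) / 2 + k * ((0 - 1 / 2) * ∑ i ∈ range P.tau, (c.sR i - c.sL i)) := by
      have e : ∀ t ∈ range (P.tau * k), ψ t = k * (c.sL (t / k) + (c.sR (t / k) - c.sL (t / k)) *
        (((t : ℝ) + 0) / k - ((t / k : ℕ) : ℝ))) := fun t ht => if_pos (mem_range.1 ht)
      rw [Finset.sum_congr rfl e, ← Finset.mul_sum, sum_aff_cells hk1, Finset.sum_add_distrib,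
        ← Finset.mul_sum, ← Finset.sum_mul]
      ring
    have hfac : (((P.mu * k).factorial : ℕ) : ℝ) ≤
        Real.exp (P.mu * k * ((2 * Real.log ((P.mu : ℝ) + 1) + 1) * Lg)) := by
      have f1 : (((P.mu * k).factorial : ℕ) : ℝ) ≤ ((P.mu * k : ℕ) : ℝ) ^ (P.mu * k) := by
        exact_mod_cast Nat.factorial_le_pow (P.mu * k)
      have hmk : (0 : ℝ) < ((P.mu * k : ℕ) : ℝ) := by
        have : 0 < P.mu * k := Nat.mul_pos hP.mu1 hk1
        exact_mod_cast this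
      refine f1.trans ?_
      rw [← Real.exp_log hmk, ← Real.exp_nat_mul, Real.exp_le_exp]
      have f2 : Real.log ((P.mu * k : ℕ) : ℝ) ≤ (2 * Real.log ((P.mu : ℝ) + 1) + 1) * Lg := by
        have := log_lin_le (X := (P.mu : ℝ)) (Y := 1) hk1 (y := 0) le_rfl (by positivity)
          (by norm_num)
        rw [add_zero, add_zero] at this
        refine le_trans (Real.log_le_log hmk ?_) this
        push_cast
        linarith
      have f3 := mul_le_mul_of_nonneg_left f2 hmk.le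
      push_cast at f3 ⊢
      exact f3
    have hpow : (2 * (((P.tau * k : ℕ) : ℝ) + 1)) ^ (P.mu * k) ≤
        Real.exp (P.mu * k * ((2 * Real.log ((2 * P.tau : ℝ) + 2) + 1) * Lg)) := by
      have hmk : (0 : ℝ) < 2 * (((P.tau * k : ℕ) : ℝ) + 1) := by positivity
      rw [← Real.exp_log hmk, ← Real.exp_nat_mul, Real.exp_le_exp]
      have f2 : Real.log (2 * (((P.tau * k : ℕ) : ℝ) + 1)) ≤
          (2 * Real.log ((2 * P.tau : ℝ) + 2) + 1) * Lg := by
        have := log_lin_le (X := (2 * P.tau : ℝ)) (Y := 2) hk1 (y := 0) le_rfl (by positivity)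
          (by norm_num)
        rw [add_zero, add_zero] at this
        refine le_trans (Real.log_le_log hmk ?_) this
        push_cast
        linarith
      have f3 := mul_le_mul_of_nonneg_left f2 (Nat.cast_nonneg (α := ℝ) (P.mu * k))
      push_cast at f3 ⊢
      exact f3
    refine (mul_le_mul hfac (mul_le_mul_of_nonneg_right hpow (Real.exp_nonneg _))
      (by positivity) (Real.exp_nonneg _)).trans ?_
    rw [← Real.exp_add, ← Real.exp_add, Real.exp_le_exp, hψs]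
    have htot := c.tot
    have t1 := mul_le_mul_of_nonneg_left htot (sq_nonneg (k : ℝ))
    have t2 : (P.r + 1) * (k * ((0 - 1 / 2) * ∑ i ∈ range P.tau, (c.sR i - c.sL i))) ≤
        (P.r + 1) * |∑ i ∈ range P.tau, (c.sR i - c.sL i)| * (k * Lg) := by
      have q0 := (abs_le.1 (le_refl |∑ i ∈ range P.tau, (c.sR i - c.sL i)|)).1
      have q00 : 0 ≤ |∑ i ∈ range P.tau, (c.sR i - c.sL i)| := abs_nonneg _
      have q1 : (0 - 1 / 2) * (∑ i ∈ range P.tau, (c.sR i - c.sL i)) ≤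
          |∑ i ∈ range P.tau, (c.sR i - c.sL i)| * Lg := by nlinarith
      have q2 := mul_le_mul_of_nonneg_left q1 (mul_nonneg (by positivity : (0 : ℝ) ≤ P.r + 1)
        hkp.le)
      linarith
    have t3 : (((P.mu * k : ℕ) : ℝ)) * l = (k : ℝ) ^ 2 * (P.mu * c.l) +
        (4 * P.mu ^ 2 - 4 * NL Lv * P.mu) * ((k : ℝ) ^ 2 * Real.log k) +
        P.mu * C4 * (k * Lg) := by
      rw [hl]; push_cast; ring
    have e00 : e0 P c.eL c.eR c.fL c.fR = P.c1 * ∑ i ∈ range P.t1, (c.eL i + c.eR i) / 2 +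
      P.c2 * ∑ i ∈ range P.tau, (c.eL i + c.eR i) / 2 +
      2 * P.d * ∑ j ∈ range P.eps, (c.fL j + c.fR j) / 2 := rfl
    rw [e00] at hen
    have hkk' : C5 * (k * Lg) = P.mu * C4 * (k * Lg) +
      P.mu * k * ((2 * Real.log ((P.mu : ℝ) + 1) + 1) * Lg) +
      P.mu * k * ((2 * Real.log ((2 * P.tau : ℝ) + 2) + 1) * Lg) +
      (P.r + 1) * |∑ i ∈ range P.tau, (c.sR i - c.sL i)| * (k * Lg) + C3 * (k * Lg) := by
      rw [hC5]; ring
    rw [hkk'] at hkk
    rw [t3]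
    linarith [t1, t2, hen, hkk]
  · -- the line
    intro y
    refine (h2 k y hk1).trans ?_
    rw [Real.exp_le_exp]
    have hy0 := abs_nonneg y
    set v := |y| with hv
    have hvk : 0 ≤ v / k := by positivity
    have hlog1 : Real.log ((c.Y0 + 1) * k + 1) ≤
        (2 * Real.log (((c.Y0 : ℝ) + 1) + 1) + 1) * Lg := by
      have := log_lin_le (X := (c.Y0 : ℝ) + 1) (Y := 1) hk1 (y := 0) le_rfl (by positivity)
        (by norm_num)
      rwa [add_zero, add_zero] at this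
    have hlog2 := mul_le_mul_of_nonneg_left hlog1 hC2
    have hextra : 0 ≤ (C1 + 2 * (1 + C2 * Real.log (C2 + 1))) * Lg := by positivity
    rcases lt_or_ge (v / k) c.Y0 with hc | hc
    · have i1 : ⌊v / k⌋₊ < c.Y0 := (Nat.floor_lt hvk).2 hc
      have i2 := c.line _ i1 (v / k) (Nat.floor_le hvk) (Nat.lt_floor_add_one _).le
      rw [sub_self, zero_mul, add_zero] at i2
      have i3 := mul_le_mul_of_nonneg_left i2 hkp.le
      have i4 : Real.log (k + 1 + v) ≤ Real.log ((c.Y0 + 1) * k + 1) := by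
        apply Real.log_le_log (by positivity)
        rw [div_lt_iff₀ hkp] at hc
        linarith
      have i5 := mul_le_mul_of_nonneg_left i4 hC2
      rw [hl, hC4]
      linarith
    · have i2 := c.tail (v / k) hc
      have i3 := mul_le_mul_of_nonneg_left i2 hkp.le
      set u := v - c.Y0 * k with hu
      have hu0 : 0 ≤ u := by
        rw [le_div_iff₀ hkp] at hc
        linarith
      have i6 : (k : ℝ) * (c.l - (v / k - c.Y0)) = k * c.l - u := by
        rw [hu]; field_simp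
      rw [i6] at i3
      have i4 : Real.log (k + 1 + v) ≤ Real.log ((c.Y0 + 1) * k + 1) + Real.log (1 + u) := by
        rw [← Real.log_mul (by positivity) (by positivity)]
        apply Real.log_le_log (by positivity)
        have : (0 : ℝ) ≤ (c.Y0 + 1) * k := by positivity
        nlinarith
      have i5 := mul_le_mul_of_nonneg_left i4 hC2
      have i7 := log_one_add_absorb hC2 hu0
      have i8 : 1 + C2 * Real.log (C2 + 1) ≤ 2 * (1 + C2 * Real.log (C2 + 1)) * Lg := by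
        have : 0 ≤ 1 + C2 * Real.log (C2 + 1) := by positivity
        nlinarith
      have i9 : 0 ≤ C1 * Lg := by positivity
      rw [hl, hC4]
      linarith
  · -- the sites
    intro t ht
    refine (h1 k t hk1 ht).trans ?_
    rw [Real.exp_le_exp]
    obtain ⟨d1, d2, d3⟩ := div_mem_cell hk1 ht (h := 0) le_rfl one_pos
    have e : ψ t = k * (c.sL (t / k) + (c.sR (t / k) - c.sL (t / k)) *
        (((t : ℝ) + 0) / k - ((t / k : ℕ) : ℝ))) := if_pos ht
    have i2 := c.site _ d1 _ d2 d3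
    rw [e]
    rw [add_zero] at i2 ⊢
    have i3 := mul_le_mul_of_nonneg_left i2 hkp.le
    have i4 : 0 ≤ (C2 * (2 * Real.log (((c.Y0 : ℝ) + 1) + 1) + 1) +
      2 * (1 + C2 * Real.log (C2 + 1))) * Lg := by positivity
    rw [hl, hC4]
    linarith

end EM

end Z579
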