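import Pool.Agent.Lib.ZSA.GArch

/-!
# Reference configurations with several blocks
-/

open Finset

namespace Z579

namespace EM

open Arch

/-- weighted sum over a list of blocks -/
noncomputable def LS (l : List (ℕ × ℕ)) (f : ℕ → ℝ) : ℝ := (l.map fun x => (x.2 : ℝ) * f x.1).sum

lemma LS_nil (f : ℕ → ℝ) : LS [] f = 0 := rfl

lemma LS_cons (x : ℕ × ℕ) (l : List (ℕ × ℕ)) (f : ℕ → ℝ) :
    LS (x :: l) f = (x.2 : ℝ) * f x.1 + LS l f := rfl

lemma LS_add (l : List (ℕ × ℕ)) (f g : ℕ → ℝ) : LS l (fun t => f t + g t) = LS l f + LS l g := by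
  induction l with
  | nil => simp [LS_nil]
  | cons x l ih => rw [LS_cons, LS_cons, LS_cons, ih]; ring

lemma LS_mul (l : List (ℕ × ℕ)) (a : ℝ) (f : ℕ → ℝ) : LS l (fun t => a * f t) = a * LS l f := by
  induction l with
  | nil => simp [LS_nil]
  | cons x l ih => rw [LS_cons, LS_cons, ih]; ring

lemma LS_le (l : List (ℕ × ℕ)) (f g : ℕ → ℝ) (h : ∀ x ∈ l, f x.1 ≤ g x.1) : LS l f ≤ LS l g := by
  induction l with
  | nil => simp [LS_nil]
  | cons x l ih =>
    rw [LS_cons, LS_cons]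
    have h1 := mul_le_mul_of_nonneg_left (h x List.mem_cons_self) (Nat.cast_nonneg (α := ℝ) x.2)
    have h2 := ih fun y hy => h y (List.mem_cons_of_mem _ hy)
    linarith

lemma LS_nonneg (l : List (ℕ × ℕ)) (f : ℕ → ℝ) (h : ∀ x ∈ l, 0 ≤ f x.1) : 0 ≤ LS l f := by
  have := LS_le l (fun _ => 0) f h
  have e : LS l (fun _ => 0) = 0 := by
    have := LS_mul l 0 (fun _ => 1)
    simpa using this
  linarith

lemma LS_congr (l : List (ℕ × ℕ)) (f g : ℕ → ℝ) (h : ∀ x ∈ l, f x.1 = g x.1) :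
    LS l f = LS l g :=
  le_antisymm (LS_le l f g fun x hx => (h x hx).le) (LS_le l g f fun x hx => (h x hx).ge)

lemma LS_abs (l : List (ℕ × ℕ)) (f g : ℕ → ℝ) {c : ℝ} (h : ∀ x ∈ l, |f x.1 - g x.1| ≤ c) :
    |LS l f - LS l g| ≤ LS l (fun _ => 1) * c := by
  have e : LS l (fun _ => 1) * c = LS l (fun _ => c * 1) := by rw [LS_mul]; ring
  rw [e, abs_le]
  constructor
  · have := LS_le l g (fun t => f t + c * 1) fun x hx => by
      have := (abs_le.1 (h x hx)).1
      linarith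
    rw [LS_add] at this
    linarith
  · have := LS_le l f (fun t => g t + c * 1) fun x hx => by
      have := (abs_le.1 (h x hx)).2
      linarith
    rw [LS_add] at this
    linarith

lemma LS_sum {ι : Type*} (s : Finset ι) (l : List (ℕ × ℕ)) (f : ι → ℕ → ℝ) :
    ∑ i ∈ s, LS l (f i) = LS l (fun t => ∑ i ∈ s, f i t) := by
  induction l with
  | nil => simp [LS_nil]
  | cons x l ih =>
    simp_rw [LS_cons]
    rw [Finset.sum_add_distrib, ih, Finset.mul_sum]

/-- parameters with several blocks: `sb` lists the pairs `(w, C)` of site blocks `t < w k` with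
weight `C / den`, `lb` the pairs `(e, D)` of line blocks `|y| < e k` with weight `D / den` -/
structure PB where
  r : ℕ
  al : ℕ
  tau : ℕ
  eps : ℕ
  mu : ℕ
  den : ℕ
  sb : List (ℕ × ℕ)
  lb : List (ℕ × ℕ)

structure PB.Ok (P : PB) : Prop where
  r2 : 2 ≤ P.r
  al1 : 1 ≤ P.al
  tau2 : 2 ≤ P.tau
  mu1 : 1 ≤ P.mu
  den1 : 1 ≤ P.den
  sbt : ∀ x ∈ P.sb, x.1 ≤ P.tau
  lbe : ∀ x ∈ P.lb, x.1 ≤ P.eps
  mass : LS P.sb (fun w => w) + 2 * LS P.lb (fun e => e) = P.mu * P.den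

/-- unit scale potential of the reference configuration at the sites -/
noncomputable def USB (P : PB) (s : ℝ) : ℝ :=
  (LS P.sb (fun w => BS P.al w s) + LS P.lb (fun e => BSl P.al P.tau e s)) / P.den

/-- unit scale potential of the reference configuration on the line -/
noncomputable def ULB (P : PB) (y : ℝ) : ℝ :=
  (LS P.sb (fun w => BL P.al P.tau w y) + LS P.lb (fun e => BLl P.al P.tau e y)) / P.den

/-- weighted potential at the sites -/
noncomputable def PhiSB (P : PB) (Lv : Finset ℕ) (s : ℝ) : ℝ := -QL Lv P.al 1 s 0 + 2 * USB P s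

/-- weighted potential on the line -/
noncomputable def PhiLB (P : PB) (Lv : Finset ℕ) (y : ℝ) : ℝ :=
  -QL Lv P.al 1 P.tau y - 2 * Real.pi * y + 2 * ULB P y

/-- constant of the energy -/
noncomputable def e0B (P : PB) (eL eR fL fR : ℕ → ℝ) : ℝ :=
  (LS P.sb (fun w => ∑ i ∈ range w, (eL i + eR i) / 2) +
    LS P.lb (fun e => 2 * ∑ j ∈ range e, (fL j + fR j) / 2)) / P.den

/-- numerical data -/
structure CertB (P : PB) (Lv : Finset ℕ) (A0 : ℝ) where
  l : ℝ
  Y0 : ℕ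
  sL : ℕ → ℝ
  sR : ℕ → ℝ
  eL : ℕ → ℝ
  eR : ℕ → ℝ
  fL : ℕ → ℝ
  fR : ℕ → ℝ
  sLn : ∀ i < P.tau, 0 ≤ sL i
  sRn : ∀ i < P.tau, 0 ≤ sR i
  line : ∀ j < Y0, CellLe (PhiLB P Lv) j l l
  tail : ∀ y : ℝ, (Y0 : ℝ) ≤ y → PhiLB P Lv y ≤ l - (y - Y0)
  site : ∀ i < P.tau, CellLe (PhiSB P Lv) i (l + sL i) (l + sR i)
  enS : ∀ i < P.tau, CellLe (fun s => -USB P s) i (-eL i) (-eR i)
  enL : ∀ j < P.eps, CellLe (fun s => -ULB P s) j (-fL j) (-fR j)
  tot : P.mu * l + (P.r + 1) * ∑ i ∈ range P.tau, (sL i + sR i) / 2 - e0B P eL eR fL fR ≤ A0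

/-- the archimedean bound for every functional with a mixed representation -/
def ArchTotB (P : PB) (Lv : Finset ℕ) (D0 : ℕ) (A0 : ℝ) : Prop :=
  ∀ δ : ℝ, 0 < δ → ∃ k0 : ℕ, ∀ k : ℕ, k0 ≤ k →
  ∀ (L : Polynomial ℚ →ₗ[ℚ] ℚ) (S : ℕ → PowerSeries ℂ),
  Rep P.r (P.al * k + 1) (P.tau * k) (2 * (P.mu * k) - 2) (D0 * k) (Rlev Lv k) S
    (fun j => ((L (Polynomial.X ^ j) : ℚ) : ℂ)) →
  |((hank L (P.mu * k) : ℚ) : ℝ)| ≤
    Real.exp (k ^ 2 * ((2 * P.mu ^ 2 - 4 * NL Lv * P.mu) * Real.log k + A0 + δ))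

/-! ## the reference configuration -/

/-- index set -/
noncomputable def rS (P : PB) (k : ℕ) : Finset (ℕ ⊕ ℤ) :=
  (range (P.tau * k)).disjSum (Ico (-((P.eps * k : ℕ) : ℤ)) ((P.eps * k : ℕ) : ℤ))

/-- positions -/
noncomputable def rX (P : PB) (k : ℕ) : ℕ ⊕ ℤ → ℂ
  | Sum.inl t => pos (P.al * k + 1) (P.tau * k) (Sum.inl t)
  | Sum.inr l => pos (P.al * k + 1) (P.tau * k) (Sum.inr ((l : ℝ) + 1 / 2))

/-- weights -/
noncomputable def rC (P : PB) (k : ℕ) : ℕ ⊕ ℤ → ℝ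
  | Sum.inl t => LS P.sb (fun w => if t < w * k then 1 else 0) / P.den
  | Sum.inr l => LS P.lb (fun e => if -((e * k : ℕ) : ℤ) ≤ l ∧ l < ((e * k : ℕ) : ℤ) then 1 else 0) /
      P.den

variable {P : PB}

lemma sum_rC (hP : P.Ok) (k : ℕ) (f : ℕ ⊕ ℤ → ℝ) :
    ∑ x ∈ rS P k, rC P k x * f x =
      (LS P.sb (fun w => ∑ t ∈ range (w * k), f (Sum.inl t)) +
        LS P.lb (fun e => ∑ l ∈ Ico (-((e * k : ℕ) : ℤ)) ((e * k : ℕ) : ℤ), f (Sum.inr l))) /
        P.den := by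
  unfold rS
  rw [Finset.sum_disjSum, add_div]
  congr 1
  · have h1 : ∀ t, rC P k (Sum.inl t) * f (Sum.inl t) =
        LS P.sb (fun w => f (Sum.inl t) * if t < w * k then 1 else 0) / P.den := by
      intro t
      rw [LS_mul, rC]
      ring
    simp_rw [h1]
    rw [← Finset.sum_div, LS_sum]
    congr 1
    refine LS_congr _ _ _ fun x hx => ?_
    have hw := Nat.mul_le_mul_right k (hP.sbt x hx)
    have h2 : ∀ t, f (Sum.inl t) * (if t < x.1 * k then (1 : ℝ) else 0) =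
        if t < x.1 * k then f (Sum.inl t) else 0 := by
      intro t
      split_ifs <;> simp
    simp_rw [h2]
    rw [← Finset.sum_filter]
    refine Finset.sum_congr ?_ fun _ _ => rfl
    ext t
    simp only [mem_filter, mem_range]
    omega
  · have h1 : ∀ l, rC P k (Sum.inr l) * f (Sum.inr l) =
        LS P.lb (fun e => f (Sum.inr l) *
          if -((e * k : ℕ) : ℤ) ≤ l ∧ l < ((e * k : ℕ) : ℤ) then 1 else 0) / P.den := by
      intro t
      rw [LS_mul, rC]
      ring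
    simp_rw [h1]
    rw [← Finset.sum_div, LS_sum]
    congr 1
    refine LS_congr _ _ _ fun x hx => ?_
    have hw : x.1 * k ≤ P.eps * k := Nat.mul_le_mul_right k (hP.lbe x hx)
    have h2 : ∀ l : ℤ, f (Sum.inr l) *
        (if -((x.1 * k : ℕ) : ℤ) ≤ l ∧ l < ((x.1 * k : ℕ) : ℤ) then (1 : ℝ) else 0) =
        if -((x.1 * k : ℕ) : ℤ) ≤ l ∧ l < ((x.1 * k : ℕ) : ℤ) then f (Sum.inr l) else 0 := by
      intro l
      split_ifs <;> simp
    simp_rw [h2]
    rw [← Finset.sum_filter]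
    refine Finset.sum_congr ?_ fun _ _ => rfl
    ext l
    simp only [mem_filter, mem_Ico]
    omega

lemma mass_rC (hP : P.Ok) (k : ℕ) : ∑ x ∈ rS P k, rC P k x = ((P.mu * k : ℕ) : ℝ) := by
  have h := sum_rC hP k (fun _ => 1)
  simp only [mul_one, sum_const, card_range, Int.card_Ico, nsmul_eq_mul] at h
  rw [h]
  have h1 : ∀ e : ℕ, ((((e * k : ℕ) : ℤ) - -((e * k : ℕ) : ℤ)).toNat : ℝ) = k * (2 * e) := by
    intro e
    have : (((e * k : ℕ) : ℤ) - -((e * k : ℕ) : ℤ)).toNat = 2 * (e * k) := by omega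
    rw [this]
    push_cast
    ring
  have h2 : ∀ w : ℕ, ((w * k : ℕ) : ℝ) = k * w := by intro w; push_cast; ring
  simp_rw [h1, h2]
  rw [LS_mul, LS_mul, LS_mul]
  have hd : (P.den : ℝ) ≠ 0 := by
    have := hP.den1
    positivity
  rw [div_eq_iff hd]
  have := hP.mass
  linear_combination (k : ℝ) * this

/-! ## potentials -/

/-- total weight -/
noncomputable def WT (P : PB) : ℝ := (LS P.sb (fun _ => 1) + LS P.lb (fun _ => 1)) / P.den

lemma WT_nonneg (P : PB) : 0 ≤ WT P := by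
  unfold WT
  have h1 := LS_nonneg P.sb (fun _ => 1) fun _ _ => zero_le_one
  have h2 := LS_nonneg P.lb (fun _ => 1) fun _ _ => zero_le_one
  positivity

/-- potential of the reference configuration at the sites -/
theorem pot_siteB (hU1 : U1) (hU2 : U2) (hP : P.Ok) : ∃ C : ℝ, 0 ≤ C ∧ ∀ k t : ℕ, 1 ≤ k →
    t < P.tau * k →
    |(∑ x ∈ rS P k, rC P k x * KK (pos (P.al * k + 1) (P.tau * k) (Sum.inl t)) (rX P k x)) -
      (k * USB P (t / k) + 2 * P.mu * (k * Real.log k))| ≤ C * Real.log (k + 1) := by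
  obtain ⟨C1, hC1, h1⟩ := hU1
  obtain ⟨C2, hC2, h2⟩ := hU2
  have hL0 : 0 ≤ Real.log ((P.al + P.tau + P.eps : ℝ) + 2) :=
    Real.log_nonneg (by
      have : (0 : ℝ) ≤ P.al + P.tau + P.eps := by positivity
      linarith)
  refine ⟨WT P * ((C1 + C2) * (2 * Real.log ((P.al + P.tau + P.eps) + 2) + 1)),
    mul_nonneg (WT_nonneg P) (by positivity), ?_⟩
  intro k t hk ht
  have hk0 : (0 : ℝ) < k := by exact_mod_cast hk
  have hA : 1 ≤ P.al * k := Nat.one_le_iff_ne_zero.2 (by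
    have := hP.al1
    positivity)
  have hT : 1 ≤ P.tau * k := Nat.one_le_iff_ne_zero.2 (by
    have := hP.tau2
    have : P.tau ≠ 0 := by omega
    have : k ≠ 0 := by omega
    positivity)
  have hd : (0 : ℝ) < P.den := by
    have := hP.den1
    positivity
  rw [sum_rC hP]
  have hts : (t : ℝ) = k * (t / k) := by field_simp
  set Lc : ℝ := (C1 + C2) * (2 * Real.log ((P.al + P.tau + P.eps) + 2) + 1) * Real.log (k + 1)
    with hLc
  have hlk : 0 ≤ Real.log ((k : ℝ) + 1) := (by norm_num : (0 : ℝ) ≤ 1 / 2).trans (half_le_log hk)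
  have l1 : Real.log (((P.al * k : ℕ) : ℝ) + ((P.tau * k : ℕ) : ℝ) + 2) ≤
      (2 * Real.log ((P.al + P.tau + P.eps) + 2) + 1) * Real.log (k + 1) := by
    have := log_lin_le (X := P.al + P.tau + P.eps) (Y := 2) hk (y := 0) le_rfl (by positivity)
      (by norm_num)
    rw [add_zero, add_zero] at this
    refine le_trans (Real.log_le_log (by positivity) ?_) this
    push_cast
    have : (0 : ℝ) ≤ P.eps * k := by positivity
    nlinarith
  have g1 : ∀ x ∈ P.sb, |(∑ t' ∈ range (x.1 * k), KK (pos (P.al * k + 1) (P.tau * k) (Sum.inl t))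
      (rX P k (Sum.inl t'))) - (k * BS P.al x.1 (t / k) + (2 * (k * Real.log k)) * x.1)| ≤ Lc := by
    intro x hx
    have hw : x.1 * k ≤ P.tau * k := Nat.mul_le_mul_right k (hP.sbt x hx)
    have g1 := h1 (P.al * k) (P.tau * k) (x.1 * k) t hA hT hw ht
    have e1 : BS ((P.al * k : ℕ) : ℝ) ((x.1 * k : ℕ) : ℝ) t =
        k * BS P.al x.1 (t / k) + (2 * (k * Real.log k)) * x.1 := by
      rw [show (2 * (k * Real.log k)) * (x.1 : ℝ) = 2 * x.1 * (k * Real.log k) by ring,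
        ← BS_scale hk0, ← hts]
      push_cast
      rw [mul_comm (P.al : ℝ), mul_comm (x.1 : ℝ)]
    rw [e1] at g1
    refine g1.trans ?_
    have t1 := mul_le_mul_of_nonneg_left l1 hC1
    have t2 : 0 ≤ C2 * ((2 * Real.log ((P.al + P.tau + P.eps) + 2) + 1) * Real.log (k + 1)) := by
      positivity
    rw [hLc]
    linarith
  have g2 : ∀ x ∈ P.lb, |(∑ l ∈ Ico (-((x.1 * k : ℕ) : ℤ)) ((x.1 * k : ℕ) : ℤ),
      KK (pos (P.al * k + 1) (P.tau * k) (Sum.inl t)) (rX P k (Sum.inr l))) -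
      (k * BSl P.al P.tau x.1 (t / k) + (4 * (k * Real.log k)) * x.1)| ≤ Lc := by
    intro x hx
    have g3 := h2 (P.al * k) (P.tau * k) (x.1 * k) t hA hT ht
    have e3 : BSl ((P.al * k : ℕ) : ℝ) ((P.tau * k : ℕ) : ℝ) ((x.1 * k : ℕ) : ℝ) t =
        k * BSl P.al P.tau x.1 (t / k) + (4 * (k * Real.log k)) * x.1 := by
      rw [show (4 * (k * Real.log k)) * (x.1 : ℝ) = 4 * x.1 * (k * Real.log k) by ring,
        ← BSl_scale hk0, ← hts]
      push_cast
      rw [mul_comm (P.al : ℝ), mul_comm (P.tau : ℝ), mul_comm (x.1 : ℝ)]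
    rw [e3] at g3
    refine g3.trans ?_
    have hxe : (x.1 : ℝ) ≤ P.eps := by exact_mod_cast hP.lbe x hx
    have l2 : Real.log (((P.al * k : ℕ) : ℝ) + ((P.tau * k : ℕ) : ℝ) + ((x.1 * k : ℕ) : ℝ) + 2) ≤
        (2 * Real.log ((P.al + P.tau + P.eps) + 2) + 1) * Real.log (k + 1) := by
      have := log_lin_le (X := P.al + P.tau + P.eps) (Y := 2) hk (y := 0) le_rfl (by positivity)
        (by norm_num)
      rw [add_zero, add_zero] at this
      refine le_trans (Real.log_le_log (by positivity) ?_) this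
      push_cast
      nlinarith
    have t1 := mul_le_mul_of_nonneg_left l2 hC2
    have t2 : 0 ≤ C1 * ((2 * Real.log ((P.al + P.tau + P.eps) + 2) + 1) * Real.log (k + 1)) := by
      positivity
    rw [hLc]
    linarith
  have k1 := LS_abs P.sb (fun w => ∑ t' ∈ range (w * k),
      KK (pos (P.al * k + 1) (P.tau * k) (Sum.inl t)) (rX P k (Sum.inl t')))
    (fun w => k * BS P.al w (t / k) + (2 * (k * Real.log k)) * w) g1
  have k2 := LS_abs P.lb (fun e => ∑ l ∈ Ico (-((e * k : ℕ) : ℤ)) ((e * k : ℕ) : ℤ),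
      KK (pos (P.al * k + 1) (P.tau * k) (Sum.inl t)) (rX P k (Sum.inr l)))
    (fun e => k * BSl P.al P.tau e (t / k) + (4 * (k * Real.log k)) * e) g2
  rw [LS_add, LS_mul, LS_mul] at k1 k2
  have e4 : k * USB P (t / k) + 2 * P.mu * (k * Real.log k) =
      ((k * LS P.sb (fun w => BS P.al w (t / k)) + 2 * (k * Real.log k) * LS P.sb (fun w => w)) +
      (k * LS P.lb (fun e => BSl P.al P.tau e (t / k)) +
        4 * (k * Real.log k) * LS P.lb (fun e => e))) / P.den := by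
    unfold USB
    rw [eq_div_iff hd.ne', add_mul, ← mul_div_assoc, div_mul_cancel₀ _ hd.ne']
    have := hP.mass
    linear_combination (-2 * (k * Real.log k)) * this
  rw [e4, ← sub_div, abs_div, abs_of_pos hd, div_le_iff₀ hd]
  have k3 := abs_add_le (LS P.sb (fun w => ∑ t' ∈ range (w * k),
      KK (pos (P.al * k + 1) (P.tau * k) (Sum.inl t)) (rX P k (Sum.inl t'))) -
      (k * LS P.sb (fun w => BS P.al w (t / k)) + 2 * (k * Real.log k) * LS P.sb (fun w => w)))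
    (LS P.lb (fun e => ∑ l ∈ Ico (-((e * k : ℕ) : ℤ)) ((e * k : ℕ) : ℤ),
      KK (pos (P.al * k + 1) (P.tau * k) (Sum.inl t)) (rX P k (Sum.inr l))) -
      (k * LS P.lb (fun e => BSl P.al P.tau e (t / k)) +
        4 * (k * Real.log k) * LS P.lb (fun e => e)))
  have e5 : WT P * ((C1 + C2) * (2 * Real.log ((P.al + P.tau + P.eps) + 2) + 1)) *
      Real.log (k + 1) * P.den = (LS P.sb (fun _ => 1) + LS P.lb (fun _ => 1)) * Lc := by
    unfold WT
    rw [hLc]
    field_simp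
  rw [e5, add_mul]
  refine le_trans (le_of_eq ?_) (k3.trans (add_le_add k1 k2))
  congr 1
  ring

/-- potential of the reference configuration on the line -/
theorem pot_lineB (hU3 : U3) (hU4 : U4) (hP : P.Ok) : ∃ C : ℝ, 0 ≤ C ∧ ∀ (k : ℕ) (y : ℝ),
    1 ≤ k →
    |(∑ x ∈ rS P k, rC P k x * KK (pos (P.al * k + 1) (P.tau * k) (Sum.inr y)) (rX P k x)) -
      (k * ULB P (|y| / k) + 2 * P.mu * (k * Real.log k))| ≤ C * Real.log (k + 1 + |y|) := by
  obtain ⟨C1, hC1, h1⟩ := hU3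
  obtain ⟨C2, hC2, h2⟩ := hU4
  have hL0 : 0 ≤ Real.log ((P.al + P.tau + P.eps : ℝ) + 2) :=
    Real.log_nonneg (by
      have : (0 : ℝ) ≤ P.al + P.tau + P.eps := by positivity
      linarith)
  refine ⟨WT P * ((C1 + C2) * (2 * Real.log ((P.al + P.tau + P.eps) + 2) + 1)),
    mul_nonneg (WT_nonneg P) (by positivity), ?_⟩
  intro k y hk
  have hk0 : (0 : ℝ) < k := by exact_mod_cast hk
  have hy0 := abs_nonneg y
  have hA : 1 ≤ P.al * k := Nat.one_le_iff_ne_zero.2 (by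
    have := hP.al1
    positivity)
  have hT : 1 ≤ P.tau * k := Nat.one_le_iff_ne_zero.2 (by
    have := hP.tau2
    have : P.tau ≠ 0 := by omega
    have : k ≠ 0 := by omega
    positivity)
  have hd : (0 : ℝ) < P.den := by
    have := hP.den1
    positivity
  rw [sum_rC hP]
  have hts : |y| = k * (|y| / k) := by field_simp
  set Lc : ℝ := (C1 + C2) * (2 * Real.log ((P.al + P.tau + P.eps) + 2) + 1) *
    Real.log (k + 1 + |y|) with hLc
  have hlk : 0 ≤ Real.log ((k : ℝ) + 1 + |y|) :=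
    ((by norm_num : (0 : ℝ) ≤ 1 / 2).trans (half_le_log hk)).trans
      (Real.log_le_log (by positivity) (by linarith))
  have l0 := log_lin_le (X := P.al + P.tau + P.eps) (Y := 2) hk hy0 (by positivity)
    (by norm_num)
  have g1 : ∀ x ∈ P.sb, |(∑ t' ∈ range (x.1 * k), KK (pos (P.al * k + 1) (P.tau * k) (Sum.inr y))
      (rX P k (Sum.inl t'))) - (k * BL P.al P.tau x.1 (|y| / k) + (2 * (k * Real.log k)) * x.1)| ≤
      Lc := by
    intro x hx
    have hw : x.1 * k ≤ P.tau * k := Nat.mul_le_mul_right k (hP.sbt x hx)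
    have g1 := h1 (P.al * k) (P.tau * k) (x.1 * k) y hA hT hw
    have e1 : BL ((P.al * k : ℕ) : ℝ) ((P.tau * k : ℕ) : ℝ) ((x.1 * k : ℕ) : ℝ) |y| =
        k * BL P.al P.tau x.1 (|y| / k) + (2 * (k * Real.log k)) * x.1 := by
      rw [show (2 * (k * Real.log k)) * (x.1 : ℝ) = 2 * x.1 * (k * Real.log k) by ring,
        ← BL_scale hk0, ← hts]
      push_cast
      rw [mul_comm (P.al : ℝ), mul_comm (x.1 : ℝ), mul_comm (P.tau : ℝ)]
    rw [e1] at g1
    refine g1.trans ?_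
    have l1 : Real.log (((P.al * k : ℕ) : ℝ) + ((P.tau * k : ℕ) : ℝ) + 2 + |y|) ≤
        (2 * Real.log ((P.al + P.tau + P.eps) + 2) + 1) * Real.log (k + 1 + |y|) := by
      refine le_trans (Real.log_le_log (by positivity) ?_) l0
      push_cast
      have : (0 : ℝ) ≤ P.eps * k := by positivity
      nlinarith
    have t1 := mul_le_mul_of_nonneg_left l1 hC1
    have t2 : 0 ≤ C2 * ((2 * Real.log ((P.al + P.tau + P.eps) + 2) + 1) *
        Real.log (k + 1 + |y|)) := by positivity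
    rw [hLc]
    linarith
  have g2 : ∀ x ∈ P.lb, |(∑ l ∈ Ico (-((x.1 * k : ℕ) : ℤ)) ((x.1 * k : ℕ) : ℤ),
      KK (pos (P.al * k + 1) (P.tau * k) (Sum.inr y)) (rX P k (Sum.inr l))) -
      (k * BLl P.al P.tau x.1 (|y| / k) + (4 * (k * Real.log k)) * x.1)| ≤ Lc := by
    intro x hx
    have g3 := h2 (P.al * k) (P.tau * k) (x.1 * k) y hA hT
    have e3 : BLl ((P.al * k : ℕ) : ℝ) ((P.tau * k : ℕ) : ℝ) ((x.1 * k : ℕ) : ℝ) |y| =
        k * BLl P.al P.tau x.1 (|y| / k) + (4 * (k * Real.log k)) * x.1 := by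
      rw [show (4 * (k * Real.log k)) * (x.1 : ℝ) = 4 * x.1 * (k * Real.log k) by ring,
        ← BLl_scale hk0, ← hts]
      push_cast
      rw [mul_comm (P.al : ℝ), mul_comm (P.tau : ℝ), mul_comm (x.1 : ℝ)]
    rw [e3] at g3
    refine g3.trans ?_
    have hxe : (x.1 : ℝ) ≤ P.eps := by exact_mod_cast hP.lbe x hx
    have l2 : Real.log (((P.al * k : ℕ) : ℝ) + ((P.tau * k : ℕ) : ℝ) + ((x.1 * k : ℕ) : ℝ) + 2 +
        |y|) ≤ (2 * Real.log ((P.al + P.tau + P.eps) + 2) + 1) * Real.log (k + 1 + |y|) := by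
      refine le_trans (Real.log_le_log (by positivity) ?_) l0
      push_cast
      nlinarith
    have t1 := mul_le_mul_of_nonneg_left l2 hC2
    have t2 : 0 ≤ C1 * ((2 * Real.log ((P.al + P.tau + P.eps) + 2) + 1) *
        Real.log (k + 1 + |y|)) := by positivity
    rw [hLc]
    linarith
  have k1 := LS_abs P.sb (fun w => ∑ t' ∈ range (w * k),
      KK (pos (P.al * k + 1) (P.tau * k) (Sum.inr y)) (rX P k (Sum.inl t')))
    (fun w => k * BL P.al P.tau w (|y| / k) + (2 * (k * Real.log k)) * w) g1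
  have k2 := LS_abs P.lb (fun e => ∑ l ∈ Ico (-((e * k : ℕ) : ℤ)) ((e * k : ℕ) : ℤ),
      KK (pos (P.al * k + 1) (P.tau * k) (Sum.inr y)) (rX P k (Sum.inr l)))
    (fun e => k * BLl P.al P.tau e (|y| / k) + (4 * (k * Real.log k)) * e) g2
  rw [LS_add, LS_mul, LS_mul] at k1 k2
  have e4 : k * ULB P (|y| / k) + 2 * P.mu * (k * Real.log k) =
      ((k * LS P.sb (fun w => BL P.al P.tau w (|y| / k)) +
        2 * (k * Real.log k) * LS P.sb (fun w => w)) +
      (k * LS P.lb (fun e => BLl P.al P.tau e (|y| / k)) +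
        4 * (k * Real.log k) * LS P.lb (fun e => e))) / P.den := by
    unfold ULB
    rw [eq_div_iff hd.ne', add_mul, ← mul_div_assoc, div_mul_cancel₀ _ hd.ne']
    have := hP.mass
    linear_combination (-2 * (k * Real.log k)) * this
  rw [e4, ← sub_div, abs_div, abs_of_pos hd, div_le_iff₀ hd]
  have k3 := abs_add_le (LS P.sb (fun w => ∑ t' ∈ range (w * k),
      KK (pos (P.al * k + 1) (P.tau * k) (Sum.inr y)) (rX P k (Sum.inl t'))) -
      (k * LS P.sb (fun w => BL P.al P.tau w (|y| / k)) +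
        2 * (k * Real.log k) * LS P.sb (fun w => w)))
    (LS P.lb (fun e => ∑ l ∈ Ico (-((e * k : ℕ) : ℤ)) ((e * k : ℕ) : ℤ),
      KK (pos (P.al * k + 1) (P.tau * k) (Sum.inr y)) (rX P k (Sum.inr l))) -
      (k * LS P.lb (fun e => BLl P.al P.tau e (|y| / k)) +
        4 * (k * Real.log k) * LS P.lb (fun e => e)))
  have e5 : WT P * ((C1 + C2) * (2 * Real.log ((P.al + P.tau + P.eps) + 2) + 1)) *
      Real.log (k + 1 + |y|) * P.den = (LS P.sb (fun _ => 1) + LS P.lb (fun _ => 1)) * Lc := by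
    unfold WT
    rw [hLc]
    field_simp
  rw [e5, add_mul]
  refine le_trans (le_of_eq ?_) (k3.trans (add_le_add k1 k2))
  congr 1
  ring

end EM

end Z579
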