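import Pool.Agent.Lib.ZSA.GBlk2
import Pool.Agent.Lib.ZSA.GNum

/-!
# Numerical certificates for step profiles and several blocks
-/

open Real Finset Set

namespace Z579

namespace Num

open Arch EM

/-! ## the tail -/

lemma BL_slope {A T w Y0 y : ℝ} (hw : 0 ≤ w) (hY : 0 < Y0) (hy : Y0 ≤ y) :
    BL A T w y - BL A T w Y0 ≤ 2 * w / Y0 * (y - Y0) := by
  have h := le_of_deriv_nonneg (f := fun y => 2 * w / Y0 * y - BL A T w y)
    (f' := fun y => 2 * w / Y0 - (arctan (T / y) - arctan ((T - w) / y) +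
      arctan ((2 * A + T + w) / y) - arctan ((2 * A + T) / y))) (a := Y0) (x := y)
    (fun t ht => by
      have t0 : 0 < t := by linarith
      have b (x : ℝ) : HasDerivAt (fun y => GG x y) (arctan (x / t)) t := hasDerivAt_GG_y t0
      have h1 := (((b T).sub (b (T - w))).add (b (2 * A + T + w))).sub (b (2 * A + T))
      have h2 := ((hasDerivAt_id t).const_mul (2 * w / Y0)).sub h1
      refine (h2.congr_deriv ?_).congr_of_eventuallyEq ?_
      · simp
      · filter_upwards with y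
        simp only [BL, Pi.sub_apply, Pi.add_apply, id])
    (fun t ht => by
      have t0 : 0 < t := by linarith
      have dv (u v : ℝ) (h : v ≤ u) : arctan (u / t) - arctan (v / t) ≤ (u - v) / t := by
        have := arctan_sub_le' (div_le_div_of_nonneg_right h t0.le)
        rw [← sub_div] at this
        exact this
      have g2 := dv T (T - w) (by linarith)
      have g3 := dv (2 * A + T + w) (2 * A + T) (by linarith)
      have g4 : 2 * w / t ≤ 2 * w / Y0 := div_le_div_of_nonneg_left (by positivity) hY ht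
      have e1 : (T - (T - w)) / t + (2 * A + T + w - (2 * A + T)) / t = 2 * w / t := by ring
      linarith) hy
  have e : 2 * w / Y0 * (y - Y0) = 2 * w / Y0 * y - 2 * w / Y0 * Y0 := by ring
  linarith

lemma BLl_slope {A T E Y0 y : ℝ} (hA : 0 ≤ A) (hT : 0 ≤ T) (hE : 0 ≤ E) (hY : E < Y0)
    (hy : Y0 ≤ y) :
    BLl A T E y - BLl A T E Y0 ≤ 4 * (Y0 * E / (Y0 - E) ^ 2) * (y - Y0) := by
  set D : ℝ := 2 * A + 2 * T with hD
  have D0 : 0 ≤ D := by positivity
  have h := le_of_deriv_nonneg (f := fun y => 4 * (Y0 * E / (Y0 - E) ^ 2) * y - BLl A T E y)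
    (f' := fun y => 4 * (Y0 * E / (Y0 - E) ^ 2) -
      (gg (y + E) 0 - gg (y - E) 0 + gg (y + E) D - gg (y - E) D)) (a := Y0) (x := y)
    (fun t ht => by
      have t0 : 0 < t := by linarith
      have c (D' : ℝ) (hD' : 0 ≤ D') (e : ℝ) (he : t + e ≠ 0) :
          HasDerivAt (fun y => GG (y + e) D') (gg (t + e) D') t := by
        have h1 := hasDerivAt_GG_x (x := t + e) hD' (fun _ => he)
        exact HasDerivAt.comp_add_const t e h1
      have hp : t + E ≠ 0 := by have : 0 < t + E := by linarith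
                                exact this.ne'
      have hm : t + -E ≠ 0 := by have : 0 < t + -E := by linarith
                                 exact this.ne'
      have h4 := (((c 0 le_rfl E hp).sub (c 0 le_rfl (-E) hm)).add (c D D0 E hp)).sub
        (c D D0 (-E) hm)
      have h2 := ((hasDerivAt_id t).const_mul (4 * (Y0 * E / (Y0 - E) ^ 2))).sub h4
      refine (h2.congr_deriv ?_).congr_of_eventuallyEq ?_
      · simp only [← sub_eq_add_neg]
        ring
      · filter_upwards with y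
        simp only [BLl, Pi.sub_apply, Pi.add_apply, id, ← sub_eq_add_neg, ← hD])
    (fun t ht => by
      have hyE : E < t := by linarith
      have g6 := gg_diff_le (D := 0) hE hyE
      have g7 := gg_diff_le (D := D) hE hyE
      have k2 : t * E / (t - E) ^ 2 ≤ Y0 * E / (Y0 - E) ^ 2 := by
        have a1 : 0 < t - E := by linarith
        have a2 : 0 < Y0 - E := by linarith
        rw [div_le_div_iff₀ (by positivity) (by positivity)]
        have a3 : t * (Y0 - E) ≤ Y0 * (t - E) := by nlinarith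
        have a4 : Y0 - E ≤ t - E := by linarith
        have hY0 : 0 ≤ Y0 := by linarith
        have a5 : t * (Y0 - E) * (Y0 - E) ≤ Y0 * (t - E) * (t - E) :=
          mul_le_mul a3 a4 a2.le (by positivity)
        have a6 := mul_le_mul_of_nonneg_left a5 hE
        have a7 : t * E * (Y0 - E) ^ 2 = E * (t * (Y0 - E) * (Y0 - E)) := by ring
        have a8 : Y0 * E * (t - E) ^ 2 = E * (Y0 * (t - E) * (t - E)) := by ring
        rw [a7, a8]
        exact a6
      have e3 : 2 * t * E / (t - E) ^ 2 + 2 * t * E / (t - E) ^ 2 =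
          4 * (t * E / (t - E) ^ 2) := by ring
      linarith) hy
  have e : 4 * (Y0 * E / (Y0 - E) ^ 2) * (y - Y0) =
      4 * (Y0 * E / (Y0 - E) ^ 2) * y - 4 * (Y0 * E / (Y0 - E) ^ 2) * Y0 := by ring
  linarith

theorem tail_bdB (P : PB) (hP : P.Ok) (Lv : Finset ℕ) (l : ℝ) (Y0 : ℕ) (hY : P.eps < Y0)
    (hd : (4 * LS P.sb (fun w => (w : ℝ)) / Y0 +
      8 * LS P.lb (fun e => (Y0 : ℝ) * e / ((Y0 : ℝ) - e) ^ 2)) / P.den ≤ 528 / 100)
    (h0 : PhiLB P Lv Y0 ≤ l) : ∀ y : ℝ, (Y0 : ℝ) ≤ y → PhiLB P Lv y ≤ l - (y - Y0) := by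
  intro y hy
  have hYp : (0 : ℝ) < Y0 := by
    have : 0 < Y0 := by omega
    exact_mod_cast this
  have hden : (0 : ℝ) < P.den := by
    have := hP.den1
    positivity
  have h2 : QL Lv P.al 1 P.tau Y0 ≤ QL Lv P.al 1 P.tau y := by
    unfold QL
    refine Finset.sum_le_sum fun i _ => ?_
    have hi : (0 : ℝ) ≤ i := Nat.cast_nonneg i
    have := GG_sub_mono (x := P.tau + P.al + i * 1) (x' := P.tau + P.al - i * 1) (by linarith)
      hYp hy
    linarith
  have k1 := LS_le P.sb (fun w => BL P.al P.tau w y)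
    (fun w => BL P.al P.tau w Y0 + (2 * (y - Y0) / Y0) * w) fun x _ => by
      have := BL_slope (A := P.al) (T := P.tau) (w := x.1) (Nat.cast_nonneg _) hYp hy
      have e : 2 * (x.1 : ℝ) / Y0 * (y - Y0) = (2 * (y - Y0) / Y0) * x.1 := by ring
      linarith
  have k2 := LS_le P.lb (fun e => BLl P.al P.tau e y)
    (fun e => BLl P.al P.tau e Y0 + (4 * (y - Y0)) * ((Y0 : ℝ) * e / ((Y0 : ℝ) - e) ^ 2))
    fun x hx => by
      have hxe : x.1 < Y0 := lt_of_le_of_lt (hP.lbe x hx) hY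
      have := BLl_slope (A := P.al) (T := P.tau) (E := x.1) (Nat.cast_nonneg _)
        (Nat.cast_nonneg _) (Nat.cast_nonneg _) (by exact_mod_cast hxe) hy
      have e : 4 * ((Y0 : ℝ) * x.1 / ((Y0 : ℝ) - x.1) ^ 2) * (y - Y0) =
        (4 * (y - Y0)) * ((Y0 : ℝ) * x.1 / ((Y0 : ℝ) - x.1) ^ 2) := by ring
      linarith
  rw [LS_add, LS_mul] at k1 k2
  have hu : 2 * ULB P y ≤ 2 * ULB P Y0 + 528 / 100 * (y - Y0) := by
    unfold ULB
    rw [div_le_iff₀ hden] at hd
    have h3 := mul_le_mul_of_nonneg_right hd (sub_nonneg.2 hy)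
    have e1 : 2 * ((LS P.sb (fun w => BL P.al P.tau w Y0) +
        LS P.lb (fun e => BLl P.al P.tau e Y0)) / P.den) + 528 / 100 * (y - Y0) =
        (2 * (LS P.sb (fun w => BL P.al P.tau w Y0) + LS P.lb (fun e => BLl P.al P.tau e Y0)) +
          528 / 100 * P.den * (y - Y0)) / P.den := by
      field_simp
    rw [e1, ← mul_div_assoc, div_le_div_iff_of_pos_right hden]
    have e2 : 4 * LS P.sb (fun w => (w : ℝ)) / Y0 * (y - Y0) =
        2 * (2 * (y - Y0) / Y0 * LS P.sb (fun w => (w : ℝ))) := by ring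
    have e3 : (4 * LS P.sb (fun w => (w : ℝ)) / Y0 +
        8 * LS P.lb (fun e => (Y0 : ℝ) * e / ((Y0 : ℝ) - e) ^ 2)) * (y - Y0) =
        4 * LS P.sb (fun w => (w : ℝ)) / Y0 * (y - Y0) +
        2 * (4 * (y - Y0) * LS P.lb (fun e => (Y0 : ℝ) * e / ((Y0 : ℝ) - e) ^ 2)) := by ring
    rw [e3, e2] at h3
    linarith
  have hpi := pi_gt_d4
  have h4 : 528 / 100 * (y - Y0) + (y - Y0) ≤ 2 * π * (y - Y0) := by
    have : 0 ≤ y - Y0 := sub_nonneg.2 hy
    nlinarith
  have e5 : 2 * π * y = 2 * π * Y0 + 2 * π * (y - Y0) := by ring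
  unfold PhiLB at h0 ⊢
  rw [e5]
  linarith

/-! ## term lists -/

def Tss (al f : ℤ) : List (ℕ × ℕ) → List Trm
  | [] => []
  | x :: l => ⟨f * x.2, true, 0, 0, true⟩ :: ⟨f * x.2, true, x.1, 0, false⟩ ::
      ⟨f * x.2, true, 2 * al + x.1, 0, true⟩ :: ⟨-(f * x.2), true, 2 * al, 0, true⟩ :: Tss al f l

def Tsl (al tau f : ℤ) : List (ℕ × ℕ) → List Trm
  | [] => []
  | x :: l => ⟨2 * (f * x.2), false, x.1, tau, false⟩ ::
      ⟨2 * (f * x.2), false, x.1, 2 * al + tau, true⟩ :: Tsl al tau f l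

def Tls (al tau f : ℤ) : List (ℕ × ℕ) → List Trm
  | [] => []
  | x :: l => ⟨f * x.2, false, tau, 0, true⟩ :: ⟨-(f * x.2), false, tau - x.1, 0, true⟩ ::
      ⟨f * x.2, false, 2 * al + tau + x.1, 0, true⟩ ::
      ⟨-(f * x.2), false, 2 * al + tau, 0, true⟩ :: Tls al tau f l

def Tll (al tau f : ℤ) : List (ℕ × ℕ) → List Trm
  | [] => []
  | x :: l => ⟨f * x.2, true, x.1, 0, true⟩ :: ⟨-(f * x.2), true, -x.1, 0, true⟩ ::
      ⟨f * x.2, true, x.1, 2 * al + 2 * tau, true⟩ ::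
      ⟨-(f * x.2), true, -x.1, 2 * al + 2 * tau, true⟩ :: Tll al tau f l

lemma tval_Tss (al : ℕ) (f : ℤ) (l : List (ℕ × ℕ)) (s : ℝ) :
    tval (Tss al f l) s = f * LS l (fun w => BS al w s) := by
  induction l with
  | nil => simp [Tss, tval, LS_nil]
  | cons x l ih =>
    rw [Tss, tval, tval, tval, tval, ih, LS_cons]
    simp only [Trm.val, sgn, if_true, Bool.false_eq_true, if_false, BS]
    push_cast
    simp only [zero_add, one_mul, neg_one_mul, ← sub_eq_add_neg]
    rw [show 2 * (al : ℝ) + s + x.1 = 2 * al + x.1 + s by ring]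
    ring

lemma tval_Tsl (al tau : ℕ) (f : ℤ) (l : List (ℕ × ℕ)) (s : ℝ) :
    tval (Tsl al tau f l) s = f * LS l (fun e => BSl al tau e s) := by
  induction l with
  | nil => simp [Tsl, tval, LS_nil]
  | cons x l ih =>
    rw [Tsl, tval, tval, ih, LS_cons]
    simp only [Trm.val, sgn, if_true, Bool.false_eq_true, if_false, BSl]
    push_cast
    simp only [one_mul, neg_one_mul, ← sub_eq_add_neg]
    ring

lemma tval_Tls (al tau : ℕ) (f : ℤ) (l : List (ℕ × ℕ)) (s : ℝ) :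
    tval (Tls al tau f l) s = f * LS l (fun w => BL al tau w s) := by
  induction l with
  | nil => simp [Tls, tval, LS_nil]
  | cons x l ih =>
    rw [Tls, tval, tval, tval, tval, ih, LS_cons]
    simp only [Trm.val, sgn, if_true, Bool.false_eq_true, if_false, BL]
    push_cast
    simp only [zero_add, one_mul]
    ring

lemma tval_Tll (al tau : ℕ) (f : ℤ) (l : List (ℕ × ℕ)) (s : ℝ) :
    tval (Tll al tau f l) s = f * LS l (fun e => BLl al tau e s) := by
  induction l with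
  | nil => simp [Tll, tval, LS_nil]
  | cons x l ih =>
    rw [Tll, tval, tval, tval, tval, ih, LS_cons]
    simp only [Trm.val, sgn, if_true, BLl]
    push_cast
    simp only [one_mul]
    rw [show (-(x.1 : ℝ) + s) = s - x.1 by ring, show ((x.1 : ℝ) + s) = s + x.1 by ring]
    ring

lemma PhiSB_eq (P : PB) (hP : P.Ok) (Lv : Finset ℕ) (be : List ℕ)
    (hbe : ∀ f : ℕ → ℝ, ∑ i ∈ Lv, f i = (be.map f).sum) (s : ℝ) :
    PhiSB P Lv s = tval (TBS P.al P.den be ++ (Tss P.al 2 P.sb ++ Tsl P.al P.tau 2 P.lb)) s /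
      P.den := by
  have hd : (P.den : ℝ) ≠ 0 := by
    have := hP.den1
    positivity
  rw [tval_append, tval_append, tval_TBS, tval_Tss, tval_Tsl, PhiSB, QL, hbe, USB]
  push_cast
  field_simp

lemma USB_eq (P : PB) (s : ℝ) :
    -USB P s = tval (Tss P.al (-1) P.sb ++ Tsl P.al P.tau (-1) P.lb) s / P.den := by
  rw [tval_append, tval_Tss, tval_Tsl, USB]
  push_cast
  ring

lemma PhiLB_eq (P : PB) (hP : P.Ok) (Lv : Finset ℕ) (be : List ℕ)
    (hbe : ∀ f : ℕ → ℝ, ∑ i ∈ Lv, f i = (be.map f).sum) (s : ℝ) :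
    PhiLB P Lv s = tval (TBL P.al P.tau P.den be ++ (Tls P.al P.tau 2 P.sb ++
      Tll P.al P.tau 2 P.lb)) s / P.den - 2 * π * s := by
  have hd : (P.den : ℝ) ≠ 0 := by
    have := hP.den1
    positivity
  rw [tval_append, tval_append, tval_TBL, tval_Tls, tval_Tll, PhiLB, QL, hbe, ULB]
  push_cast
  field_simp
  ring

lemma ULB_eq (P : PB) (s : ℝ) :
    -ULB P s = tval (Tls P.al P.tau (-1) P.sb ++ Tll P.al P.tau (-1) P.lb) s / P.den := by
  rw [tval_append, tval_Tls, tval_Tll, ULB]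
  push_cast
  ring

/-! ## assembly -/

def chkLineB (be : List ℕ) (al tau den : ℕ) (sb lb : List (ℕ × ℕ)) (l : ℤ) (j : ℕ) : Bool :=
  cellOK (TBL al tau den be ++ (Tls al tau 2 sb ++ Tll al tau 2 lb)) (8 * den) den j l l

def chkSiteB (be : List ℕ) (al tau den : ℕ) (sb lb : List (ℕ × ℕ)) (D : Dat) (i : ℕ) : Bool :=
  cellOK (TBS al den be ++ (Tss al 2 sb ++ Tsl al tau 2 lb)) 0 den i
    (D.l + D.sL.getD i 0) (D.l + D.sR.getD i 0) &&
    decide (0 ≤ D.sL.getD i 0) && decide (0 ≤ D.sR.getD i 0)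

def chkSB (al tau den : ℕ) (sb lb : List (ℕ × ℕ)) (D : Dat) (i : ℕ) : Bool :=
  cellOK (Tss al (-1) sb ++ Tsl al tau (-1) lb) 0 den i (-D.eL.getD i 0) (-D.eR.getD i 0)

def chkLB (al tau den : ℕ) (sb lb : List (ℕ × ℕ)) (D : Dat) (j : ℕ) : Bool :=
  cellOK (Tls al tau (-1) sb ++ Tll al tau (-1) lb) 0 den j (-D.fL.getD j 0) (-D.fR.getD j 0)

def LSZ (l : List (ℕ × ℕ)) (f : ℕ → ℤ) : ℤ := (l.map fun x => (x.2 : ℤ) * f x.1).sum

lemma LSZ_eq (l : List (ℕ × ℕ)) (f : ℕ → ℤ) : ((LSZ l f : ℤ) : ℝ) = LS l (fun t => (f t : ℝ)) := by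
  induction l with
  | nil => simp [LSZ, LS_nil]
  | cons x l ih =>
    rw [LS_cons, ← ih, LSZ, LSZ, List.map_cons, List.sum_cons]
    push_cast
    rfl

/-- integer form of the total, in units `1 / (2000 den)` -/
def totB (r mu tau den : ℕ) (sb lb : List (ℕ × ℕ)) (D : Dat) : ℤ :=
  2 * den * mu * D.l + (r + 1) * den * sumZ tau (fun i => D.sL.getD i 0 + D.sR.getD i 0) -
    (LSZ sb (fun w => sumZ w (fun i => D.eL.getD i 0 + D.eR.getD i 0)) +
      LSZ lb (fun e => 2 * sumZ e (fun j => D.fL.getD j 0 + D.fR.getD j 0)))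

theorem mk_certB (P : PB) (hP : P.Ok) (Lv : Finset ℕ) (be : List ℕ)
    (hbe : ∀ f : ℕ → ℝ, ∑ i ∈ Lv, f i = (be.map f).sum) (D : Dat) (Y0 : ℕ) (A0 : ℤ)
    (hY : P.eps < Y0)
    (hd : (4 * LS P.sb (fun w => (w : ℝ)) / Y0 +
      8 * LS P.lb (fun e => (Y0 : ℝ) * e / ((Y0 : ℝ) - e) ^ 2)) / P.den ≤ 528 / 100)
    (kL : ∀ j < Y0, chkLineB be P.al P.tau P.den P.sb P.lb D.l j = true)
    (kS : ∀ i < P.tau, chkSiteB be P.al P.tau P.den P.sb P.lb D i = true)
    (kES : ∀ i < P.tau, chkSB P.al P.tau P.den P.sb P.lb D i = true)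
    (kEL : ∀ j < P.eps, chkLB P.al P.tau P.den P.sb P.lb D j = true)
    (kT : totB P.r P.mu P.tau P.den P.sb P.lb D ≤ 2000 * P.den * A0) :
    Nonempty (CertB P Lv (A0 : ℝ)) := by
  have hden : (0 : ℤ) < P.den := by
    have := hP.den1
    omega
  have hdr : (P.den : ℝ) ≠ 0 := by
    have := hP.den1
    positivity
  have hline : ∀ j < Y0, CellLe (PhiLB P Lv) j ((D.l : ℝ) / 1000) ((D.l : ℝ) / 1000) := by
    intro j hj s hs hs'
    have h := cellOK_spec (by positivity) hden (kL j hj) hs hs'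
    rw [PhiLB_eq P hP Lv be hbe]
    have e : ((8 * (P.den : ℤ) : ℤ) : ℝ) * π * s / (4 * ((P.den : ℤ) : ℝ)) = 2 * π * s := by
      push_cast; field_simp; ring
    rw [e] at h
    push_cast at h ⊢
    exact h
  refine ⟨{ l := (D.l : ℝ) / 1000, Y0 := Y0,
            sL := fun i => ((D.sL.getD i 0 : ℤ) : ℝ) / 1000,
            sR := fun i => ((D.sR.getD i 0 : ℤ) : ℝ) / 1000,
            eL := fun i => ((D.eL.getD i 0 : ℤ) : ℝ) / 1000,
            eR := fun i => ((D.eR.getD i 0 : ℤ) : ℝ) / 1000,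
            fL := fun i => ((D.fL.getD i 0 : ℤ) : ℝ) / 1000,
            fR := fun i => ((D.fR.getD i 0 : ℤ) : ℝ) / 1000,
            sLn := ?_, sRn := ?_, line := hline, tail := ?_, site := ?_, enS := ?_, enL := ?_,
            tot := ?_ }⟩
  · intro i hi
    have h := kS i hi
    simp only [chkSiteB, Bool.and_eq_true, decide_eq_true_eq] at h
    have : (0 : ℝ) ≤ ((D.sL.getD i 0 : ℤ) : ℝ) := by exact_mod_cast h.1.2
    positivity
  · intro i hi
    have h := kS i hi
    simp only [chkSiteB, Bool.and_eq_true, decide_eq_true_eq] at h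
    have : (0 : ℝ) ≤ ((D.sR.getD i 0 : ℤ) : ℝ) := by exact_mod_cast h.2
    positivity
  · apply tail_bdB P hP Lv _ Y0 hY hd
    obtain ⟨Y, rfl⟩ : ∃ Y, Y0 = Y + 1 := ⟨Y0 - 1, by omega⟩
    have h := hline Y (by omega) ((Y : ℝ) + 1) (by linarith) (le_refl _)
    push_cast
    linarith
  · intro i hi s hs hs'
    have h := kS i hi
    simp only [chkSiteB, Bool.and_eq_true] at h
    have h' := cellOK_spec (le_refl 0) hden h.1.1 hs hs'
    rw [PhiSB_eq P hP Lv be hbe]
    push_cast at h' ⊢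
    simp only [zero_mul, zero_div, sub_zero] at h'
    calc _ ≤ _ := h'
      _ = _ := by ring
  · intro i hi s hs hs'
    have h' := cellOK_spec (le_refl 0) hden (kES i hi) hs hs'
    show -USB P s ≤ _
    rw [USB_eq P]
    push_cast at h' ⊢
    simp only [zero_mul, zero_div, sub_zero] at h'
    calc _ ≤ _ := h'
      _ = _ := by ring
  · intro i hi s hs hs'
    have h' := cellOK_spec (le_refl 0) hden (kEL i hi) hs hs'
    show -ULB P s ≤ _
    rw [ULB_eq P]
    push_cast at h' ⊢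
    simp only [zero_mul, zero_div, sub_zero] at h'
    calc _ ≤ _ := h'
      _ = _ := by ring
  · have h := kT
    have h' : ((totB P.r P.mu P.tau P.den P.sb P.lb D : ℤ) : ℝ) ≤ 2000 * P.den * A0 := by
      exact_mod_cast h
    rw [totB] at h'
    push_cast [sumZ_eq, LSZ_eq] at h'
    have hdp : (0 : ℝ) < P.den := lt_of_le_of_ne (Nat.cast_nonneg _) hdr.symm
    have e : ∀ (n : ℕ) (f g : ℕ → ℤ), ∑ i ∈ range n, ((f i : ℝ) / 1000 + (g i : ℝ) / 1000) / 2 =
        (1 / 2000) * ∑ i ∈ range n, ((f i : ℝ) + (g i : ℝ)) := by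
      intro n f g
      rw [Finset.mul_sum]
      refine Finset.sum_congr rfl fun i _ => by ring
    unfold e0B
    rw [e P.tau (fun i => D.sL.getD i 0) (fun i => D.sR.getD i 0),
      LS_congr P.sb _ (fun w => (1 / 2000) * ∑ i ∈ range w, (((D.eL.getD i 0 : ℤ) : ℝ) +
        ((D.eR.getD i 0 : ℤ) : ℝ))) (fun x _ => e x.1 (fun i => D.eL.getD i 0)
        (fun i => D.eR.getD i 0)),
      LS_congr P.lb _ (fun w => (1 / 2000) * (2 * ∑ i ∈ range w, (((D.fL.getD i 0 : ℤ) : ℝ) +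
        ((D.fR.getD i 0 : ℤ) : ℝ)))) (fun x _ => by
          rw [e x.1 (fun i => D.fL.getD i 0) (fun i => D.fR.getD i 0)]; ring),
      LS_mul, LS_mul]
    rw [← mul_le_mul_iff_right₀ (show (0 : ℝ) < 2000 * P.den by positivity)]
    refine le_trans (le_of_eq ?_) h'
    field_simp
    ring

end Num

end Z579
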