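import Pool.Agent.Lib.Z579.E5d

/-!
# The energy bound for Hankel determinants of a general functional with mixed representation
-/

open MeasureTheory Filter Topology Polynomial Finset

namespace Z579

namespace EM

/-- site functional of a family of power series -/
noncomputable def siteG (r a : ℕ) (S : ℕ → PowerSeries ℂ) (t : ℕ) (G : ℂ[X]) : ℂ :=
  PowerSeries.coeff r (S t * evS ((a : ℂ) + t) G)

/-- line integrand of a function -/
noncomputable def lineG (r a T : ℕ) (Rf : ℂ → ℂ) (G : ℂ[X]) (y : ℝ) : ℂ :=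
  Rf ((a : ℂ) + T + tt y) * G.eval (((a : ℂ) + T + tt y) ^ 2) * Ker r (tt y)

/-- mixed representation of the moments `μ k`, `k ≤ D` -/
structure Rep (r a T D : ℕ) (Dc : ℝ) (Rf : ℂ → ℂ) (S : ℕ → PowerSeries ℂ) (μ : ℕ → ℂ) : Prop where
  int : ∀ k ≤ D, Integrable (lineG r a T Rf (X ^ k))
  eq : ∀ k ≤ D, μ k = ∑ t ∈ Finset.range T, siteG r a S t (X ^ k) +
    -(1 / (2 * Real.pi)) * ∫ y : ℝ, lineG r a T Rf (X ^ k) y
  maj : ∀ t < T, Maj ‖Rf ((a : ℂ) + t)‖ Dc (S t)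
  pg : PG fun y => ‖Rf (pos a T (Sum.inr y))‖

lemma siteG_sum (r a t : ℕ) (S : ℕ → PowerSeries ℂ) (G : ℂ[X]) {D : ℕ} (hD : G.natDegree < D) :
    siteG r a S t G = ∑ k ∈ Finset.range D, G.coeff k * siteG r a S t (X ^ k) := by
  have h : evS ((a : ℂ) + t) G = ∑ k ∈ Finset.range D, G.coeff k • evS ((a : ℂ) + t) (X ^ k) := by
    conv_lhs => rw [G.as_sum_range' D hD]
    rw [evS, map_sum]
    refine Finset.sum_congr rfl fun k _ => ?_
    rw [← C_mul_X_pow_eq_monomial, evS, map_mul, aeval_C, Algebra.smul_def]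
  rw [siteG, h, Finset.mul_sum, map_sum]
  refine Finset.sum_congr rfl fun k _ => ?_
  rw [mul_smul_comm, PowerSeries.coeff_smul, smul_eq_mul, siteG]

lemma lineG_sum (r a T : ℕ) (Rf : ℂ → ℂ) (G : ℂ[X]) {D : ℕ} (hD : G.natDegree < D) (y : ℝ) :
    lineG r a T Rf G y = ∑ k ∈ Finset.range D, G.coeff k * lineG r a T Rf (X ^ k) y := by
  rw [lineG, Polynomial.eval_eq_sum_range' hD, Finset.mul_sum, Finset.sum_mul]
  refine Finset.sum_congr rfl fun k _ => ?_
  rw [lineG, eval_pow, eval_X]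
  ring

/-- the mixed representation for complex polynomials -/
theorem LC_formulaG {r a T D : ℕ} {Dc : ℝ} {Rf : ℂ → ℂ} {S : ℕ → PowerSeries ℂ} {μ : ℕ → ℂ}
    (h : Rep r a T D Dc Rf S μ) (G : ℂ[X]) (hG : G.natDegree ≤ D) :
    LC μ G = ∑ t ∈ Finset.range T, siteG r a S t G +
      -(1 / (2 * Real.pi)) * ∫ y : ℝ, lineG r a T Rf G y := by
  have hG' : G.natDegree < D + 1 := by omega
  rw [LC_apply _ _ hG']
  have h1 : ∀ k ∈ Finset.range (D + 1), μ k =
      ∑ t ∈ Finset.range T, siteG r a S t (X ^ k) +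
      -(1 / (2 * Real.pi)) * ∫ y : ℝ, lineG r a T Rf (X ^ k) y := by
    intro k hk
    rw [Finset.mem_range] at hk
    exact h.eq k (by omega)
  rw [Finset.sum_congr rfl fun k hk => by rw [h1 k hk]]
  have h2 : (fun y => lineG r a T Rf G y) =
      fun y => ∑ k ∈ Finset.range (D + 1), G.coeff k * lineG r a T Rf (X ^ k) y := by
    funext y; exact lineG_sum r a T Rf G hG' y
  have hint : ∀ k ∈ Finset.range (D + 1), Integrable fun y =>
      G.coeff k * lineG r a T Rf (X ^ k) y := by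
    intro k hk
    rw [Finset.mem_range] at hk
    exact (h.int k (by omega)).const_mul (G.coeff k)
  rw [h2, integral_finsetSum _ hint]
  simp only [integral_const_mul]
  rw [Finset.sum_congr rfl fun t _ => siteG_sum r a t S G hG', Finset.sum_comm,
    Finset.mul_sum, ← Finset.sum_add_distrib]
  refine Finset.sum_congr rfl fun k _ => ?_
  rw [← Finset.mul_sum]
  ring

/-- a saturated site does not contribute -/
lemma siteG_sat {r a T t : ℕ} {S : ℕ → PowerSeries ℂ} (Z Z' : List Pt)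
    (h : r < cnt Z t ∨ r < cnt Z' t) :
    siteG r a S t (PZ a T Z * PZ a T Z') = 0 := by
  have h1 : (PowerSeries.X : PowerSeries ℂ) ^ (r + 1) ∣ evS ((a : ℂ) + t) (PZ a T Z * PZ a T Z') := by
    rw [evS_mul]
    rcases h with h | h
    · exact ((pow_dvd_pow _ h).trans (X_pow_dvd_PZ Z)).mul_right _
    · exact ((pow_dvd_pow _ h).trans (X_pow_dvd_PZ Z')).mul_left _
  rw [siteG]
  exact (PowerSeries.X_pow_dvd_iff.mp (h1.mul_left _)) r (Nat.lt_succ_self r)

/-- bound for a site -/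
lemma siteG_le {r a T t m D : ℕ} {Dc : ℝ} {Rf : ℂ → ℂ} {S : ℕ → PowerSeries ℂ} {μ : ℕ → ℂ}
    (h : Rep r a T D Dc Rf S μ) (hDc : 0 ≤ Dc) (ha : 1 ≤ a) (ht : t < T) (Z Z' : List Pt)
    (hZ : ∀ t', Sum.inl t' ∈ Z → t' < T) (hZ' : ∀ t', Sum.inl t' ∈ Z' → t' < T)
    (hm : Z.length < m) (hm' : Z'.length < m) :
    ‖siteG r a S t (PZ a T Z * PZ a T Z')‖ ≤
      ((Dc + 6 * m) ^ r * ‖Rf ((a : ℂ) + t)‖) *
        Real.exp (pot a T Z (Sum.inl t)) * Real.exp (pot a T Z' (Sum.inl t)) := by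
  have h1 := h.maj t ht
  have h2 := Maj_PZ ha ht Z hZ
  have h3 := Maj_PZ ha ht Z' hZ'
  have h4 := h1.mul (h2.mul h3)
  rw [← evS_mul] at h4
  have h5 := h4.2.2 r
  rw [siteG]
  refine h5.trans ?_
  have h6 : (Dc + (3 * Z.length + 3 * Z'.length) : ℝ) ^ r ≤ (Dc + 6 * m) ^ r := by
    apply pow_le_pow_left₀ (by positivity)
    have h7 : (Z.length : ℝ) ≤ m := by exact_mod_cast hm.le
    have h8 : (Z'.length : ℝ) ≤ m := by exact_mod_cast hm'.le
    linarith
  calc _ ≤ ‖Rf ((a : ℂ) + t)‖ * (Real.exp (pot a T Z (Sum.inl t)) *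
        Real.exp (pot a T Z' (Sum.inl t))) * (Dc + 6 * m) ^ r :=
        mul_le_mul_of_nonneg_left h6 (by positivity)
    _ = _ := by ring

/-- the weight -/
noncomputable def wgtG (r : ℕ) (Dc : ℝ) (Rf : ℂ → ℂ) (a T m : ℕ) (KR : ℝ) : Pt → ℝ
  | Sum.inl t => (Dc + 6 * m) ^ r * ‖Rf (pos a T (Sum.inl t))‖
  | Sum.inr y => KR * (1 + y ^ 2) * ‖Rf (pos a T (Sum.inr y))‖ * Real.exp (-(2 * Real.pi * |y|))

lemma wgtG_nonneg {r a T m : ℕ} {Dc : ℝ} {Rf : ℂ → ℂ} {KR : ℝ} (hK : 0 ≤ KR) (hDc : 0 ≤ Dc)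
    (p : Pt) : 0 ≤ wgtG r Dc Rf a T m KR p := by
  rcases p with t | y
  · unfold wgtG; positivity
  · unfold wgtG; positivity

/-- the bound for the matrix entries -/
theorem entry_boundG {r a T m : ℕ} {Dc : ℝ} {Rf : ℂ → ℂ} {S : ℕ → PowerSeries ℂ} {μ : ℕ → ℂ}
    (h : Rep r a T (2 * m - 2) Dc Rf S μ) (hDc : 0 ≤ Dc) (ha : 1 ≤ a)
    {KR : ℝ} (hK : 0 ≤ KR) (hKer : ∀ y : ℝ, ‖Ker r (tt y)‖ ≤ KR * Real.exp (-(2 * Real.pi * |y|)))
    (Z Z' : List Pt) (hm : Z.length < m) (hm' : Z'.length < m) (hg : good r T Z)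
    (hg' : good r T Z') (V V' : ℝ) (hV0 : 0 ≤ V) (hV0' : 0 ≤ V')
    (hV : ∀ p, avail r T Z p → val a T (wgtG r Dc Rf a T m KR) Z p ≤ V)
    (hV' : ∀ p, avail r T Z' p → val a T (wgtG r Dc Rf a T m KR) Z' p ≤ V') :
    ‖LC μ (PZ a T Z * PZ a T Z')‖ ≤ (T + 1 : ℝ) * √V * √V' := by
  have hdeg : (PZ a T Z * PZ a T Z').natDegree ≤ 2 * m - 2 := by
    rw [(PZ_monic a T Z).natDegree_mul (PZ_monic a T Z'), PZ_natDegree, PZ_natDegree]
    omega
  rw [LC_formulaG h _ hdeg]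
  -- mixed bound
  have hmix : ∀ p, avail r T Z p → avail r T Z' p →
      wgtG r Dc Rf a T m KR p * Real.exp (pot a T Z p) * Real.exp (pot a T Z' p) ≤ √V * √V' := by
    intro p hp hp'
    have hw := wgtG_nonneg (r := r) (a := a) (T := T) (m := m) (Rf := Rf) hK hDc p
    have h1 := hV p hp
    have h2 := hV' p hp'
    rw [val, two_mul, Real.exp_add] at h1 h2
    have e1 : wgtG r Dc Rf a T m KR p * Real.exp (pot a T Z p) * Real.exp (pot a T Z' p) =
        √(wgtG r Dc Rf a T m KR p * (Real.exp (pot a T Z p) * Real.exp (pot a T Z p))) *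
        √(wgtG r Dc Rf a T m KR p * (Real.exp (pot a T Z' p) * Real.exp (pot a T Z' p))) := by
      rw [Real.sqrt_mul hw, Real.sqrt_mul hw, Real.sqrt_mul_self (Real.exp_pos _).le,
        Real.sqrt_mul_self (Real.exp_pos _).le]
      have := Real.mul_self_sqrt hw
      calc _ = (√(wgtG r Dc Rf a T m KR p) * √(wgtG r Dc Rf a T m KR p)) *
            Real.exp (pot a T Z p) * Real.exp (pot a T Z' p) := by rw [this]
        _ = _ := by ring
    rw [e1]
    exact mul_le_mul (Real.sqrt_le_sqrt h1) (Real.sqrt_le_sqrt h2) (Real.sqrt_nonneg _)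
      (Real.sqrt_nonneg _)
  have hVV : 0 ≤ √V * √V' := mul_nonneg (Real.sqrt_nonneg _) (Real.sqrt_nonneg _)
  have hsites : ‖∑ t ∈ Finset.range T, siteG r a S t (PZ a T Z * PZ a T Z')‖ ≤
      T * (√V * √V') := by
    refine (norm_sum_le _ _).trans ?_
    have : ∀ t ∈ Finset.range T, ‖siteG r a S t (PZ a T Z * PZ a T Z')‖ ≤ √V * √V' := by
      intro t ht
      rw [Finset.mem_range] at ht
      by_cases hs : r < cnt Z t ∨ r < cnt Z' t
      · rw [siteG_sat Z Z' hs, norm_zero]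
        exact hVV
      · rw [not_or] at hs
        refine (siteG_le h hDc ha ht Z Z' (fun t' h => (hg t' h).1) (fun t' h => (hg' t' h).1)
          hm hm').trans ?_
        exact hmix (Sum.inl t) ⟨ht, by omega⟩ ⟨ht, by omega⟩
    refine (Finset.sum_le_sum this).trans ?_
    rw [Finset.sum_const, Finset.card_range, nsmul_eq_mul]
  have hline : ‖∫ y : ℝ, lineG r a T Rf (PZ a T Z * PZ a T Z') y‖ ≤ Real.pi * (√V * √V') := by
    have hb : ∀ y : ℝ, ‖lineG r a T Rf (PZ a T Z * PZ a T Z') y‖ ≤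
        (√V * √V') * (1 + y ^ 2)⁻¹ := by
      intro y
      have hy : (0 : ℝ) < 1 + y ^ 2 := by positivity
      rw [lineG, norm_mul, norm_mul, eval_mul, norm_mul]
      have h1 := norm_eval_PZ_le (a := a) (T := T) Z (Sum.inr y)
      have h2 := norm_eval_PZ_le (a := a) (T := T) Z' (Sum.inr y)
      rw [pos_line] at h1 h2
      have h3 := hmix (Sum.inr y) trivial trivial
      rw [wgtG, pos_line] at h3
      rw [← div_eq_mul_inv, le_div_iff₀ hy]
      calc _ ≤ ‖Rf ((a : ℂ) + T + tt y)‖ *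
            (Real.exp (pot a T Z (Sum.inr y)) * Real.exp (pot a T Z' (Sum.inr y))) *
            (KR * Real.exp (-(2 * Real.pi * |y|))) * (1 + y ^ 2) := by
            apply mul_le_mul_of_nonneg_right _ hy.le
            apply mul_le_mul _ (hKer y) (norm_nonneg _) (by positivity)
            apply mul_le_mul_of_nonneg_left _ (norm_nonneg _)
            exact mul_le_mul h1 h2 (norm_nonneg _) (Real.exp_pos _).le
        _ = KR * (1 + y ^ 2) * ‖Rf ((a : ℂ) + T + tt y)‖ *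
              Real.exp (-(2 * Real.pi * |y|)) * Real.exp (pot a T Z (Sum.inr y)) *
              Real.exp (pot a T Z' (Sum.inr y)) := by ring
        _ ≤ _ := h3
    refine (norm_integral_le_of_norm_le (integrable_inv_one_add_sq.const_mul _)
      (Eventually.of_forall hb)).trans ?_
    rw [integral_const_mul, integral_univ_inv_one_add_sq]
    exact le_of_eq (mul_comm _ _)
  refine (norm_add_le _ _).trans ?_
  have h4 : ‖-(1 / (2 * (Real.pi : ℂ))) *
      ∫ y : ℝ, lineG r a T Rf (PZ a T Z * PZ a T Z') y‖ ≤ √V * √V' := by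
    rw [norm_mul, norm_neg, norm_div, norm_one, norm_mul, Complex.norm_real, Complex.norm_ofNat,
      Real.norm_of_nonneg Real.pi_pos.le]
    have hpi := Real.pi_pos
    calc 1 / (2 * Real.pi) * ‖∫ y : ℝ, lineG r a T Rf (PZ a T Z * PZ a T Z') y‖ ≤
          1 / (2 * Real.pi) * (Real.pi * (√V * √V')) :=
          mul_le_mul_of_nonneg_left hline (by positivity)
      _ = 1 / 2 * (√V * √V') := by field_simp
      _ ≤ √V * √V' := by linarith
  calc _ ≤ T * (√V * √V') + √V * √V' := add_le_add hsites h4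
    _ = _ := by ring

/-- boundedness of the values -/
theorem val_bddG {r a T m : ℕ} {Dc : ℝ} {Rf : ℂ → ℂ} {KR : ℝ}
    (hpg : PG fun y => ‖Rf (pos a T (Sum.inr y))‖) (Z : List Pt) :
    ∃ V : ℝ, ∀ p, avail r T Z p → val a T (wgtG r Dc Rf a T m KR) Z p ≤ V := by
  have h1 : PG fun y => KR * (1 + y ^ 2) * ‖Rf (pos a T (Sum.inr y))‖ *
      Real.exp (2 * pot a T Z (Sum.inr y)) := by
    refine (((PG.const KR).mul ?_).mul hpg).mul (PG_pot a T Z)
    have h2 : PG fun y : ℝ => y := (PG.linear 0 le_rfl).of_le fun y => by simp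
    exact PG_one_add_sq h2
  obtain ⟨V1, hV1⟩ := h1.bdd
  obtain ⟨V2, hV2⟩ : ∃ V2 : ℝ, ∀ t < T, val a T (wgtG r Dc Rf a T m KR) Z (Sum.inl t) ≤ V2 := by
    refine ⟨∑ t ∈ Finset.range T, |val a T (wgtG r Dc Rf a T m KR) Z (Sum.inl t)|, fun t ht => ?_⟩
    exact (le_abs_self _).trans (Finset.single_le_sum
      (f := fun t => |val a T (wgtG r Dc Rf a T m KR) Z (Sum.inl t)|)
      (fun t _ => abs_nonneg _) (Finset.mem_range.mpr ht))
  refine ⟨max V1 V2, fun p hp => ?_⟩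
  rcases p with t | y
  · exact (hV2 t hp.1).trans (le_max_right _ _)
  · refine le_trans (le_of_eq ?_) ((hV1 y).trans (le_max_left _ _))
    rw [val, wgtG]
    ring

/-- the determinant bound for the Hankel determinant -/
theorem hank_energyG {r a T m : ℕ} {Dc : ℝ} {Rf : ℂ → ℂ} {S : ℕ → PowerSeries ℂ}
    (L : ℚ[X] →ₗ[ℚ] ℚ) (h : Rep r a T (2 * m - 2) Dc Rf S fun k => ((L (X ^ k) : ℚ) : ℂ))
    (hDc : 0 ≤ Dc) (ha : 1 ≤ a)
    {KR : ℝ} (hK : 0 ≤ KR) (hKer : ∀ y : ℝ, ‖Ker r (tt y)‖ ≤ KR * Real.exp (-(2 * Real.pi * |y|)))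
    {κ : Type*} (s : Finset κ) (x : κ → ℂ) (c : κ → ℝ) (hc : ∑ k ∈ s, c k = m)
    (l : ℝ) (ψ : ℕ → ℝ) (hψ : ∀ t, 0 ≤ ψ t)
    (hline : ∀ y : ℝ, wgtG r Dc Rf a T m KR (Sum.inr y) *
      Real.exp (2 * ∑ k ∈ s, c k * KK (pos a T (Sum.inr y)) (x k)) ≤ Real.exp l)
    (hsite : ∀ t : ℕ, t < T → wgtG r Dc Rf a T m KR (Sum.inl t) *
      Real.exp (2 * ∑ k ∈ s, c k * KK (pos a T (Sum.inl t)) (x k)) ≤ Real.exp (l + ψ t)) :
    |((hank L m : ℚ) : ℝ)| ≤
      m.factorial * ((2 * (T + 1)) ^ m * Real.exp (m * l + (r + 1) * ∑ t ∈ Finset.range T, ψ t -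
        ∑ k ∈ s, ∑ k' ∈ s, c k * c k' * KK (x k) (x k'))) := by
  have h0 := det_energy (m := m) (b := a) (T := T) (r := r) (LC fun k => ((L (X ^ k) : ℚ) : ℂ))
    (wgtG_nonneg (r := r) (a := a) (T := T) (m := m) (Rf := Rf) hK hDc) (T + 1 : ℝ)
    (by positivity)
    (fun Z Z' hm hm' hg hg' V V' h1 h2 h3 h4 => entry_boundG h hDc ha hK hKer
      Z Z' hm hm' hg hg' V V' h1 h2 h3 h4) (fun Z => val_bddG h.pg Z) s x c hc l ψ hψ hline hsite
  refine le_trans (le_of_eq ?_) h0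
  have e1 : (Matrix.of fun i j : Fin m =>
        LC (fun k => ((L (X ^ k) : ℚ) : ℂ)) (X ^ ((i : ℕ) + (j : ℕ)))) =
      (Matrix.of fun i j : Fin m => L (X ^ ((i : ℕ) + (j : ℕ)))).map (algebraMap ℚ ℂ) := by
    ext i j
    rw [Matrix.of_apply, Matrix.map_apply, Matrix.of_apply, LC_X_pow]
    rfl
  rw [e1, ← RingHom.mapMatrix_apply, ← RingHom.map_det, hank]
  have e2 : ∀ x : ℚ, ‖(algebraMap ℚ ℂ) x‖ = |((x : ℚ) : ℝ)| := by
    intro x
    rw [eq_ratCast, ← Complex.ofReal_ratCast, Complex.norm_real, Real.norm_eq_abs]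
  rw [e2]

end EM

end Z579
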