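import Pool.Agent.Lib.ZSA.GRep
import Pool.Agent.Lib.Z579.E6W1
import Pool.Agent.Lib.Z579.E6W2
import Pool.Agent.Lib.Z579.E6c

/-!
# Weights of a step profile at the sites and on the line
-/

open Real Finset Filter Topology

namespace Z579

namespace EM

open Arch Z579.Num

/-- rational function of a step profile:
`Rlev Lv k v = 2 v / ∏_{i ∈ Lv} (∏_{|w| ≤ i k} (v + w))^2` -/
noncomputable def Rlev (Lv : Finset ℕ) (k : ℕ) (v : ℂ) : ℂ :=
  2 * v / ∏ i ∈ Lv, (∏ w ∈ pc (i * k + 1), (v + (w : ℂ))) ^ 2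

/-- exponent of the weight at the point `s + i y` -/
noncomputable def QL (Lv : Finset ℕ) (A k s y : ℝ) : ℝ :=
  ∑ i ∈ Lv, 2 * (GG (s + A + i * k) y - GG (s + A - i * k) y)

lemma site_prod_ge {A B T t : ℕ} (hB : B ≤ A) :
    Real.exp (GG ((t : ℝ) + A + B) 0 - GG ((t : ℝ) + A - B) 0) ≤
      ‖∏ w ∈ pc (B + 1), (pos (A + 1) T (Sum.inl t) + (w : ℂ))‖ := by
  obtain ⟨D, rfl⟩ : ∃ D, A = B + D := ⟨A - B, by omega⟩
  have e1 : pos (B + D + 1) T (Sum.inl t) = pos (B + 1) T (Sum.inl (t + D)) := by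
    rw [pos_site, pos_site]; push_cast; ring
  rw [e1, norm_prod_pc_site, Finset.prod_range_succ]
  have h1 := exp_GG_le_prod (t + D) (2 * B)
  have e2 : (t : ℝ) + ((B + D : ℕ) : ℝ) + B = ((t + D : ℕ) : ℝ) + ((2 * B : ℕ) : ℝ) := by
    push_cast; ring
  have e3 : (t : ℝ) + ((B + D : ℕ) : ℝ) - B = ((t + D : ℕ) : ℝ) := by
    push_cast; ring
  rw [e2, e3]
  refine h1.trans ?_
  have h2 : (1 : ℝ) ≤ ((t + D : ℕ) : ℝ) + 1 + ((2 * B : ℕ) : ℝ) := by
    have : (0 : ℝ) ≤ ((t + D : ℕ) : ℝ) + ((2 * B : ℕ) : ℝ) := by positivity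
    linarith
  exact le_mul_of_one_le_right (by positivity) h2

lemma line_prod_ge {A B T : ℕ} (hB : B ≤ A) (hT : 2 ≤ T) {y : ℝ} (hy : y ≠ 0) :
    Real.exp (GG ((T : ℝ) + A + B) |y| - GG ((T : ℝ) + A - B) |y|) ≤
      ‖∏ w ∈ pc (B + 1), (pos (A + 1) T (Sum.inr y) + (w : ℂ))‖ := by
  obtain ⟨D, rfl⟩ : ∃ D, A = B + D := ⟨A - B, by omega⟩
  have e1 : pos (B + D + 1) T (Sum.inr y) = ((B + 1 + (T + D) : ℕ) : ℂ) + tt y := by
    rw [pos_inr_eq]; push_cast; ring
  rw [e1]
  have h1 := prod_pc_ge (A := B) (T := T + D) (by omega) hy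
  refine le_trans (le_of_eq ?_) h1
  congr 2
  · congr 1; push_cast; ring
  · congr 1; push_cast; ring

lemma prod_levels_ge {Lv : Finset ℕ} {al k : ℕ} (hLv : ∀ i ∈ Lv, i ≤ al) {v : ℂ} {s y : ℝ}
    (h : ∀ B : ℕ, B ≤ al * k → Real.exp (GG (s + ((al * k : ℕ) : ℝ) + B) y -
      GG (s + ((al * k : ℕ) : ℝ) - B) y) ≤ ‖∏ w ∈ pc (B + 1), (v + (w : ℂ))‖) :
    Real.exp (QL Lv (al * k) k s y) ≤ ‖∏ i ∈ Lv, (∏ w ∈ pc (i * k + 1), (v + (w : ℂ))) ^ 2‖ := by
  rw [norm_prod, QL, Real.exp_sum]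
  refine Finset.prod_le_prod (fun i _ => Real.exp_nonneg _) fun i hi => ?_
  have h1 := h (i * k) (Nat.mul_le_mul_right k (hLv i hi))
  push_cast at h1
  rw [norm_pow]
  have e : Real.exp (2 * (GG (s + al * k + i * k) y - GG (s + al * k - i * k) y)) =
      Real.exp (GG (s + al * k + i * k) y - GG (s + al * k - i * k) y) ^ 2 := by
    rw [← Real.exp_nat_mul]
    push_cast
    rfl
  rw [e]
  exact pow_le_pow_left₀ (Real.exp_nonneg _) h1 2

lemma Rlev_le_of {Lv : Finset ℕ} {k : ℕ} {v : ℂ} {X Q : ℝ} (hX : ‖v‖ ≤ X)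
    (h : Real.exp Q ≤ ‖∏ i ∈ Lv, (∏ w ∈ pc (i * k + 1), (v + (w : ℂ))) ^ 2‖) :
    ‖Rlev Lv k v‖ ≤ 2 * X * Real.exp (-Q) := by
  have hX0 : 0 ≤ X := (norm_nonneg _).trans hX
  rw [Rlev, norm_div, norm_mul, Real.exp_neg, div_eq_mul_inv]
  have : ‖(2 : ℂ)‖ = 2 := by simp
  rw [this]
  apply mul_le_mul
  · linarith
  · exact inv_anti₀ (Real.exp_pos _) h
  · positivity
  · linarith

/-- the weight at the sites -/
theorem site_wgt {Lv : Finset ℕ} {al tau mu : ℕ} (hLv : ∀ i ∈ Lv, i ≤ al) (r D0 : ℕ) (KR : ℝ) :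
    ∃ C : ℝ, 0 ≤ C ∧ ∀ k t : ℕ, 1 ≤ k → t < tau * k →
    wgtG r (D0 * k) (Rlev Lv k) (al * k + 1) (tau * k) (mu * k) KR (Sum.inl t) ≤
      Real.exp (-QL Lv (al * k) k t 0 + C * Real.log (k + 1)) := by
  set X : ℝ := D0 + 6 * mu + 2 * (al + tau) + 2 with hX
  have hX2 : 2 ≤ X := by
    rw [hX]
    have : (0 : ℝ) ≤ D0 + 6 * mu + 2 * (al + tau) := by positivity
    linarith
  have hl0 : 0 ≤ Real.log X := Real.log_nonneg (by linarith)
  refine ⟨(r + 1) * (2 * Real.log (X + 1) + 1), ?_, ?_⟩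
  · have : 0 ≤ Real.log (X + 1) := Real.log_nonneg (by linarith)
    positivity
  intro k t hk ht
  have hk1 : (1 : ℝ) ≤ k := by exact_mod_cast hk
  have ht1 : (t : ℝ) ≤ tau * k := by exact_mod_cast ht.le
  have ht0 : (0 : ℝ) ≤ t := Nat.cast_nonneg t
  have hR : ‖Rlev Lv k (pos (al * k + 1) (tau * k) (Sum.inl t))‖ ≤
      2 * (al * k + 1 + tau * k) * Real.exp (-QL Lv (al * k) k t 0) := by
    refine Rlev_le_of ?_ (prod_levels_ge hLv fun B hB => site_prod_ge hB)
    have h2 : pos (al * k + 1) (tau * k) (Sum.inl t) = (((al : ℝ) * k + 1 + t : ℝ) : ℂ) := by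
      rw [pos_site]; push_cast; ring
    rw [h2, Complex.norm_real, Real.norm_of_nonneg (by positivity)]
    linarith
  have hb : (1 : ℝ) ≤ X * k + 1 := by nlinarith
  have h1 : (D0 * k + 6 * ((mu * k : ℕ) : ℝ)) ^ r ≤ (X * k + 1) ^ r := by
    apply pow_le_pow_left₀ (by positivity)
    push_cast
    rw [hX]
    have h0 : (0 : ℝ) ≤ (2 * (al + tau) + 2) * k + 1 := by positivity
    nlinarith
  have h2 : 2 * ((al : ℝ) * k + 1 + tau * k) ≤ X * k + 1 := by
    rw [hX]
    have h0 : (0 : ℝ) ≤ (D0 + 6 * mu) * k := by positivity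
    nlinarith
  have hlog : Real.log (X * k + 1) ≤ (2 * Real.log (X + 1) + 1) * Real.log (k + 1) := by
    have := log_lin_le (X := X) (Y := 1) hk (y := 0) le_rfl (by linarith) le_rfl
    rwa [add_zero, add_zero] at this
  have h3 : (X * k + 1) ^ (r + 1) ≤
      Real.exp ((r + 1) * (2 * Real.log (X + 1) + 1) * Real.log (k + 1)) := by
    rw [← Real.exp_log (show 0 < X * k + 1 by linarith), ← Real.exp_nat_mul, Real.exp_le_exp]
    push_cast
    have := mul_le_mul_of_nonneg_left hlog (show (0 : ℝ) ≤ r + 1 by positivity)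
    linarith
  unfold wgtG
  calc _ ≤ (X * k + 1) ^ r * ((X * k + 1) * Real.exp (-QL Lv (al * k) k t 0)) := by
        apply mul_le_mul h1 _ (norm_nonneg _) (by positivity)
        exact hR.trans (mul_le_mul_of_nonneg_right h2 (Real.exp_nonneg _))
    _ = (X * k + 1) ^ (r + 1) * Real.exp (-QL Lv (al * k) k t 0) := by ring
    _ ≤ Real.exp ((r + 1) * (2 * Real.log (X + 1) + 1) * Real.log (k + 1)) *
        Real.exp (-QL Lv (al * k) k t 0) := mul_le_mul_of_nonneg_right h3 (Real.exp_nonneg _)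
    _ = _ := by rw [← Real.exp_add, add_comm]

lemma line_wgt_aux {Lv : Finset ℕ} {al tau mu : ℕ} (hLv : ∀ i ∈ Lv, i ≤ al) (htau : 2 ≤ tau)
    (r D0 : ℕ) (KR : ℝ) (n : ℕ) (hn : 2 * |KR| ≤ 2 ^ n) {k : ℕ} (hk : 1 ≤ k) {y : ℝ}
    (hy : y ≠ 0) :
    wgtG r (D0 * k) (Rlev Lv k) (al * k + 1) (tau * k) (mu * k) KR (Sum.inr y) ≤
      Real.exp (-QL Lv (al * k) k (tau * k) |y| - 2 * Real.pi * |y| +
        ((n + 3 : ℕ) : ℝ) * Real.log (al * k + tau * k + 2 + |y|)) := by
  have hy0 := abs_nonneg y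
  set X : ℝ := al * k + tau * k + 2 + |y| with hX
  have hX2 : 2 ≤ X := by
    rw [hX]
    have : (0 : ℝ) ≤ al * k + tau * k := by positivity
    linarith
  have hX0 : 0 < X := by linarith
  have hT : 2 ≤ tau * k := le_trans htau (Nat.le_mul_of_pos_right _ (by omega))
  have hR : ‖Rlev Lv k (pos (al * k + 1) (tau * k) (Sum.inr y))‖ ≤
      2 * X * Real.exp (-QL Lv (al * k) k (tau * k) |y|) := by
    refine Rlev_le_of ?_ (prod_levels_ge hLv fun B hB => ?_)
    · rw [pos_inr_eq]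
      have := norm_v_le (al * k) (tau * k) y
      push_cast at this ⊢
      exact this
    · have := line_prod_ge (T := tau * k) hB hT hy
      push_cast at this ⊢
      exact this
  have hlog : Real.exp (((n + 3 : ℕ) : ℝ) * Real.log X) = X ^ (n + 3) := by
    rw [exp_nat_mul, Real.exp_log hX0]
  have hpow : (2 : ℝ) ^ n ≤ X ^ n := pow_le_pow_left₀ (by norm_num) hX2 n
  have hy2 : 1 + y ^ 2 ≤ X ^ 2 := by
    rw [← sq_abs y]
    have : (0 : ℝ) ≤ al * k + tau * k := by positivity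
    nlinarith
  set Q := QL Lv (al * k) k (tau * k) |y| with hQ
  unfold wgtG
  calc KR * (1 + y ^ 2) * ‖Rlev Lv k (pos (al * k + 1) (tau * k) (Sum.inr y))‖ *
        Real.exp (-(2 * π * |y|))
      ≤ |KR| * X ^ 2 * (2 * X * Real.exp (-Q)) * Real.exp (-(2 * π * |y|)) := by
        apply mul_le_mul_of_nonneg_right _ (Real.exp_pos _).le
        apply mul_le_mul _ hR (norm_nonneg _) (by positivity)
        apply mul_le_mul (le_abs_self KR) hy2 (by positivity) (abs_nonneg _)
    _ = (2 * |KR|) * X ^ 3 * (Real.exp (-Q) * Real.exp (-(2 * π * |y|))) := by ring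
    _ ≤ X ^ n * X ^ 3 * (Real.exp (-Q) * Real.exp (-(2 * π * |y|))) := by
        apply mul_le_mul_of_nonneg_right _ (by positivity)
        exact mul_le_mul_of_nonneg_right (hn.trans hpow) (by positivity)
    _ = Real.exp (-Q - 2 * π * |y| + ((n + 3 : ℕ) : ℝ) * Real.log X) := by
        rw [Real.exp_add, hlog, sub_eq_add_neg, Real.exp_add, pow_add]
        ring

/-- the weight on the line -/
theorem line_wgt {Lv : Finset ℕ} {al tau mu : ℕ} (hLv : ∀ i ∈ Lv, i ≤ al) (htau : 2 ≤ tau)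
    (r D0 : ℕ) (KR : ℝ) :
    ∃ C : ℝ, 0 ≤ C ∧ ∀ (k : ℕ) (y : ℝ), 1 ≤ k →
    wgtG r (D0 * k) (Rlev Lv k) (al * k + 1) (tau * k) (mu * k) KR (Sum.inr y) ≤
      Real.exp (-QL Lv (al * k) k (tau * k) |y| - 2 * Real.pi * |y| +
        C * Real.log (k + 1 + |y|)) := by
  obtain ⟨n, hn⟩ := pow_unbounded_of_one_lt (2 * |KR|) (one_lt_two)
  have hl0 : 0 ≤ Real.log ((al + tau : ℝ) + 2) :=
    Real.log_nonneg (by
      have : (0 : ℝ) ≤ al + tau := by positivity
      linarith)
  refine ⟨((n + 3 : ℕ) : ℝ) * (2 * Real.log ((al + tau : ℝ) + 2) + 1), by positivity,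
    fun k y hk => ?_⟩
  have hk1 : (1 : ℝ) ≤ k := by exact_mod_cast hk
  -- first bound, all `y`
  have key : wgtG r (D0 * k) (Rlev Lv k) (al * k + 1) (tau * k) (mu * k) KR (Sum.inr y) ≤
      Real.exp (-QL Lv (al * k) k (tau * k) |y| - 2 * Real.pi * |y| +
        ((n + 3 : ℕ) : ℝ) * Real.log (al * k + tau * k + 2 + |y|)) := by
    rcases eq_or_ne y 0 with hy | hy
    swap
    · exact line_wgt_aux hLv htau r D0 KR n hn.le hk hy
    subst hy
    have hf : Tendsto (fun y : ℝ => wgtG r (D0 * k) (Rlev Lv k) (al * k + 1) (tau * k) (mu * k)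
        KR (Sum.inr y)) (𝓝[≠] 0) (𝓝 (wgtG r (D0 * k) (Rlev Lv k) (al * k + 1) (tau * k)
        (mu * k) KR (Sum.inr 0))) := by
      apply tendsto_nhdsWithin_of_tendsto_nhds
      have hv : Continuous (fun y : ℝ => pos (al * k + 1) (tau * k) (Sum.inr y)) := by
        unfold pos tt
        fun_prop
      have hR : ContinuousAt (fun y : ℝ =>
          Rlev Lv k (pos (al * k + 1) (tau * k) (Sum.inr y))) 0 := by
        unfold Rlev
        apply ContinuousAt.div
        · exact (continuous_const.mul hv).continuousAt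
        · refine (continuous_finsetProd _ fun i _ => ?_).continuousAt
          exact (continuous_finsetProd _ fun w _ => hv.add continuous_const).pow 2
        · rw [Finset.prod_ne_zero_iff]
          intro i hi
          refine pow_ne_zero 2 ?_
          rw [Finset.prod_ne_zero_iff]
          intro w hw
          unfold pc at hw
          rw [Finset.mem_Icc] at hw
          rw [pos_inr_eq]
          intro h
          have h2 := congrArg Complex.re h
          simp only [tt, Complex.add_re, Complex.natCast_re, Complex.intCast_re, Complex.zero_re,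
            Complex.neg_re, Complex.mul_re, Complex.ofReal_re, Complex.ofReal_im, Complex.I_re,
            Complex.I_im] at h2
          have hw1 : (1 - ((i * k + 1 : ℕ) : ℤ) : ℝ) ≤ w := by exact_mod_cast hw.1
          have hik : ((i * k : ℕ) : ℝ) ≤ ((al * k : ℕ) : ℝ) := by
            exact_mod_cast Nat.mul_le_mul_right k (hLv i hi)
          have hT0 : (0 : ℝ) ≤ ((tau * k : ℕ) : ℝ) := Nat.cast_nonneg _
          push_cast at hw1 h2 hik hT0
          norm_num at h2
          linarith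
      have h1 : ContinuousAt (fun y : ℝ => wgtG r (D0 * k) (Rlev Lv k) (al * k + 1) (tau * k)
          (mu * k) KR (Sum.inr y)) 0 := by
        unfold wgtG
        apply ContinuousAt.mul
        · apply ContinuousAt.mul
          · fun_prop
          · exact hR.norm
        · fun_prop
      exact h1
    have hg : Tendsto (fun y : ℝ => Real.exp (-QL Lv (al * k) k (tau * k) |y| -
        2 * Real.pi * |y| + ((n + 3 : ℕ) : ℝ) * Real.log (al * k + tau * k + 2 + |y|))) (𝓝[≠] 0)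
        (𝓝 (Real.exp (-QL Lv (al * k) k (tau * k) |(0 : ℝ)| - 2 * Real.pi * |(0 : ℝ)| +
        ((n + 3 : ℕ) : ℝ) * Real.log (al * k + tau * k + 2 + |(0 : ℝ)|)))) := by
      apply tendsto_nhdsWithin_of_tendsto_nhds
      have h1 : ContinuousAt (fun y : ℝ => Real.exp (-QL Lv (al * k) k (tau * k) |y| -
          2 * Real.pi * |y| + ((n + 3 : ℕ) : ℝ) * Real.log (al * k + tau * k + 2 + |y|))) 0 := by
        apply ContinuousAt.rexp
        apply ContinuousAt.add
        · apply ContinuousAt.sub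
          · unfold QL
            exact (continuous_finsetSum _ fun i _ => continuous_const.mul
              ((continuous_GG_abs _).sub (continuous_GG_abs _))).neg.continuousAt
          · fun_prop
        · apply ContinuousAt.mul continuousAt_const
          apply ContinuousAt.log
          · fun_prop
          · rw [abs_zero]
            have : (0 : ℝ) ≤ al * k + tau * k := by positivity
            linarith
      exact h1
    refine le_of_tendsto_of_tendsto hf hg ?_
    filter_upwards [self_mem_nhdsWithin] with y hy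
    exact line_wgt_aux hLv htau r D0 KR n hn.le hk hy
  refine key.trans ?_
  rw [Real.exp_le_exp]
  have l1 : Real.log ((al : ℝ) * k + tau * k + 2 + |y|) ≤
      (2 * Real.log ((al + tau : ℝ) + 2) + 1) * Real.log (k + 1 + |y|) := by
    have := log_lin_le (X := (al + tau : ℝ)) (Y := 2) hk (abs_nonneg y) (by positivity)
      (by norm_num)
    rwa [add_mul] at this
  have t1 := mul_le_mul_of_nonneg_left l1 (Nat.cast_nonneg (α := ℝ) (n + 3))
  linarith

end EM

end Z579
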